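import Mathlib

/-!
# Local structure of claw-free cubic graphs
-/

namespace Pool.Agent.Helper54.ClawFree

variable {V : Type*}

/-- The local structure of a claw-free cubic graph: every vertex has exactly three neighbours,
two of which are adjacent. -/
def Local (G : SimpleGraph V) : Prop :=
  ∀ v, ∃ x y z, x ≠ y ∧ x ≠ z ∧ y ≠ z ∧ G.Adj x y ∧ ∀ w, G.Adj v w ↔ w = x ∨ w = y ∨ w = z

/-- Edges lying in a triangle. -/
def In (G : SimpleGraph V) (u v : V) : Prop := G.Adj u v ∧ ∃ w, G.Adj u w ∧ G.Adj v w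

/-- Edges lying in no triangle. -/
def Out (G : SimpleGraph V) (u v : V) : Prop := G.Adj u v ∧ ¬ ∃ w, G.Adj u w ∧ G.Adj v w

/-- The vertex is incident with an edge lying in no triangle. -/
def HasOut (G : SimpleGraph V) (v : V) : Prop := ∃ w, Out G v w

variable {G : SimpleGraph V}

lemma In.symm {u v : V} (h : In G u v) : In G v u := by
  obtain ⟨h1, w, h2, h3⟩ := h
  exact ⟨h1.symm, w, h3, h2⟩

lemma Out.symm {u v : V} (h : Out G u v) : Out G v u := by
  obtain ⟨h1, h2⟩ := h
  exact ⟨h1.symm, fun ⟨w, h3, h4⟩ => h2 ⟨w, h4, h3⟩⟩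

lemma in_or_out {u v : V} (h : G.Adj u v) : In G u v ∨ Out G u v := by
  by_cases h1 : ∃ w, G.Adj u w ∧ G.Adj v w
  · exact Or.inl ⟨h, h1⟩
  · exact Or.inr ⟨h, h1⟩

lemma In.not_out {u v : V} (h : In G u v) : ¬ Out G u v := fun h' => h'.2 h.2

lemma In.ne {u v : V} (h : In G u v) : u ≠ v := h.1.ne
lemma Out.ne {u v : V} (h : Out G u v) : u ≠ v := h.1.ne

lemma In.hasOut_ne {u v w : V} (h : In G u v) (h' : Out G u w) : v ≠ w := by
  rintro rfl
  exact h.not_out h'

/-- The triangle formed by adjacent vertices with a common neighbour. -/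
lemma in_of_triangle {x y z : V} (h1 : G.Adj x y) (h2 : G.Adj y z) (h3 : G.Adj x z) :
    In G x y := ⟨h1, z, h3, h2⟩

/-- An outer neighbour is unique, and the other two neighbours are adjacent. -/
lemma Local.out_structure (hL : Local G) {v v' : V} (h : Out G v v') :
    ∃ x y, x ≠ y ∧ In G v x ∧ In G v y ∧ In G x y ∧ x ≠ v' ∧ y ≠ v' ∧
      ∀ w, G.Adj v w ↔ w = x ∨ w = y ∨ w = v' := by
  obtain ⟨x, y, z, hxy, hxz, hyz, hadj, hN⟩ := hL v
  have hvx : G.Adj v x := (hN x).2 (Or.inl rfl)
  have hvy : G.Adj v y := (hN y).2 (Or.inr (Or.inl rfl))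
  have h1 : In G v x := ⟨hvx, y, hvy, hadj⟩
  have h2 : In G v y := ⟨hvy, x, hvx, hadj.symm⟩
  have h3 : In G x y := ⟨hadj, v, hvx.symm, hvy.symm⟩
  have hz : v' = z := by
    rcases (hN v').1 h.1 with h4 | h4 | h4
    · exact absurd h (by rw [h4]; exact h1.not_out)
    · exact absurd h (by rw [h4]; exact h2.not_out)
    · exact h4
  subst hz
  exact ⟨x, y, hxy, h1, h2, h3, hxz, hyz, hN⟩

lemma Local.out_unique (hL : Local G) {v a b : V} (ha : Out G v a) (hb : Out G v b) : a = b := by
  obtain ⟨x, y, -, h1, h2, -, -, -, hN⟩ := hL.out_structure ha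
  rcases (hN b).1 hb.1 with h | h | h
  · exact absurd hb (by rw [h]; exact h1.not_out)
  · exact absurd hb (by rw [h]; exact h2.not_out)
  · exact h.symm

/-- Structure at a vertex with an outer neighbour, with a prescribed inner neighbour. -/
lemma Local.out_structure' (hL : Local G) {v v' x : V} (h : Out G v v') (hx : In G v x) :
    ∃ y, x ≠ y ∧ In G v y ∧ In G x y ∧ x ≠ v' ∧ y ≠ v' ∧
      ∀ w, G.Adj v w ↔ w = x ∨ w = y ∨ w = v' := by
  obtain ⟨a, b, hab, h1, h2, h3, h4, h5, hN⟩ := hL.out_structure h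
  rcases (hN x).1 hx.1 with rfl | rfl | rfl
  · exact ⟨b, hab, h2, h3, h4, h5, hN⟩
  · refine ⟨a, hab.symm, h1, h3.symm, h5, h4, fun w => ?_⟩
    rw [hN w]; tauto
  · exact absurd h hx.not_out

/-- A diamond, possibly with the two ends adjacent: `b` and `c` are the middle vertices. -/
structure Dia (G : SimpleGraph V) (a b c d : V) : Prop where
  ab : a ≠ b
  ac : a ≠ c
  ad : a ≠ d
  bc : b ≠ c
  bd : b ≠ d
  cd : c ≠ d
  hb : ∀ w, G.Adj b w ↔ w = a ∨ w = c ∨ w = d
  hc : ∀ w, G.Adj c w ↔ w = a ∨ w = b ∨ w = d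

/-- Three distinct neighbours of a vertex of a cubic graph are all of them. -/
lemma Local.nbrs (hL : Local G) {v x y z : V} (hx : G.Adj v x) (hy : G.Adj v y) (hz : G.Adj v z)
    (hxy : x ≠ y) (hxz : x ≠ z) (hyz : y ≠ z) (w : V) :
    G.Adj v w ↔ w = x ∨ w = y ∨ w = z := by
  obtain ⟨a, b, c, hab, hac, hbc, hadj, hN⟩ := hL v
  have h1 := (hN x).1 hx
  have h2 := (hN y).1 hy
  have h3 := (hN z).1 hz
  rw [hN w]
  constructor
  · intro h
    rcases h1 with h1 | h1 | h1 <;> rcases h2 with h2 | h2 | h2 <;>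
      rcases h3 with h3 | h3 | h3 <;> subst h1 <;> subst h2 <;> subst h3 <;> tauto
  · intro h
    rcases h with h | h | h <;> subst h <;> assumption

lemma Dia.adj_ab {a b c d : V} (h : Dia G a b c d) : G.Adj a b := ((h.hb a).2 (Or.inl rfl)).symm
lemma Dia.adj_bc {a b c d : V} (h : Dia G a b c d) : G.Adj b c :=
  (h.hb c).2 (Or.inr (Or.inl rfl))
lemma Dia.adj_bd {a b c d : V} (h : Dia G a b c d) : G.Adj b d :=
  (h.hb d).2 (Or.inr (Or.inr rfl))
lemma Dia.adj_ac {a b c d : V} (h : Dia G a b c d) : G.Adj a c := ((h.hc a).2 (Or.inl rfl)).symm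
lemma Dia.adj_cd {a b c d : V} (h : Dia G a b c d) : G.Adj c d :=
  (h.hc d).2 (Or.inr (Or.inr rfl))

lemma Dia.swap {a b c d : V} (h : Dia G a b c d) : Dia G a c b d :=
  ⟨h.ac, h.ab, h.ad, h.bc.symm, h.cd, h.bd, h.hc, h.hb⟩

lemma Dia.reverse {a b c d : V} (h : Dia G a b c d) : Dia G d b c a :=
  ⟨h.bd.symm, h.cd.symm, h.ad.symm, h.bc, h.ab.symm, h.ac.symm,
    fun w => by rw [h.hb w]; tauto, fun w => by rw [h.hc w]; tauto⟩

lemma Dia.in_ab {a b c d : V} (h : Dia G a b c d) : In G a b := ⟨h.adj_ab, c, h.adj_ac, h.adj_bc⟩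
lemma Dia.in_ac {a b c d : V} (h : Dia G a b c d) : In G a c := h.swap.in_ab
lemma Dia.in_bc {a b c d : V} (h : Dia G a b c d) : In G b c :=
  ⟨h.adj_bc, a, h.adj_ab.symm, h.adj_ac.symm⟩
lemma Dia.in_bd {a b c d : V} (h : Dia G a b c d) : In G b d := h.reverse.in_ab.symm
lemma Dia.in_cd {a b c d : V} (h : Dia G a b c d) : In G c d := h.swap.in_bd

lemma Dia.not_hasOut_b {a b c d : V} (h : Dia G a b c d) : ¬ HasOut G b := by
  rintro ⟨w, hw⟩
  rcases (h.hb w).1 hw.1 with rfl | rfl | rfl
  · exact h.in_ab.symm.not_out hw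
  · exact h.in_bc.not_out hw
  · exact h.in_bd.not_out hw

lemma Dia.not_hasOut_c {a b c d : V} (h : Dia G a b c d) : ¬ HasOut G c := h.swap.not_hasOut_b

/-- A vertex with no outer neighbour is a middle vertex of a diamond. -/
lemma Local.dia_of_not_hasOut (hL : Local G) {b : V} (h : ¬ HasOut G b) :
    ∃ a c d, Dia G a b c d := by
  obtain ⟨x, y, z, hxy, hxz, hyz, hadj, hN⟩ := hL b
  have hbx : G.Adj b x := (hN x).2 (Or.inl rfl)
  have hby : G.Adj b y := (hN y).2 (Or.inr (Or.inl rfl))
  have hbz : G.Adj b z := (hN z).2 (Or.inr (Or.inr rfl))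
  have hin : In G b z := by
    rcases in_or_out hbz with h1 | h1
    · exact h1
    · exact absurd ⟨z, h1⟩ h
  obtain ⟨-, w, hw1, hw2⟩ := hin
  rcases (hN w).1 hw1 with rfl | rfl | rfl
  · -- w = x adjacent to z : middle vertex is x
    refine ⟨y, w, z, ?_⟩
    have hN' := hL.nbrs hbx.symm hadj hw2.symm (hby.ne) (hbz.ne) hyz
    exact ⟨hby.ne.symm, hxy.symm, hyz, hbx.ne, hbz.ne, hxz,
      fun u => by rw [hN u]; tauto, fun u => by rw [hN' u]; tauto⟩
  · refine ⟨x, w, z, ?_⟩
    have hN' := hL.nbrs hby.symm hadj.symm hw2.symm (hbx.ne) (hbz.ne) hxz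
    exact ⟨hbx.ne.symm, hxy, hxz, hby.ne, hbz.ne, hyz,
      fun u => by rw [hN u], fun u => by rw [hN' u]; tauto⟩
  · exact absurd hw2 (G.irrefl)

/-- In a diamond with adjacent ends no vertex has an outer neighbour. -/
lemma Dia.not_hasOut_a {a b c d : V} (hL : Local G) (h : Dia G a b c d) (had : G.Adj a d) :
    ¬ HasOut G a := by
  rintro ⟨w, hw⟩
  rcases (hL.nbrs h.adj_ab h.adj_ac had h.bc h.bd h.cd w).1 hw.1 with rfl | rfl | rfl
  · exact h.in_ab.not_out hw
  · exact h.in_ac.not_out hw
  · exact hw.2 ⟨b, h.adj_ab, h.adj_bd.symm⟩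

/-- In a diamond with nonadjacent ends, the ends have outer neighbours. -/
lemma Dia.hasOut_a {a b c d : V} (hL : Local G) (h : Dia G a b c d) (had : ¬ G.Adj a d) :
    HasOut G a := by
  by_contra hno
  obtain ⟨x, y, z, h'⟩ := hL.dia_of_not_hasOut hno
  -- neighbours of `a` are x, y, z; `y` is the other middle vertex of a diamond
  have hb := (h'.hb b).1 h.adj_ab
  have hc := (h'.hb c).1 h.adj_ac
  -- d is adjacent to b and c but not to a
  have key : ∀ u, G.Adj a u → u = b ∨ u = c ∨ (u ≠ b ∧ u ≠ c) := by intro u _; tauto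
  -- the neighbour y of a is adjacent to all other neighbours of a
  have hy : ∀ u, G.Adj a u → u ≠ y → G.Adj y u := by
    intro u hu huy
    rcases (h'.hb u).1 hu with rfl | rfl | rfl
    · exact h'.adj_ac.symm
    · exact absurd rfl huy
    · exact h'.adj_cd
  have hay : G.Adj a y := h'.adj_bc
  by_cases hyb : y = b
  · subst hyb
    -- y = b is adjacent to all other neighbours of a; so N(a) ⊆ {b} ∪ N(b) = {b,a,c,d}
    have : ∀ u, G.Adj a u → u = y ∨ u = c := by
      intro u hu
      by_cases huy : u = y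
      · exact Or.inl huy
      · rcases (h.hb u).1 (hy u hu huy) with h1 | h1 | h1
        · exact absurd (h1 ▸ hu) G.irrefl
        · exact Or.inr h1
        · exact absurd (h1 ▸ hu) had
    have e1 := this x h'.adj_ab.symm
    have e2 := this z h'.adj_bd
    have e3 := h'.ac
    have e4 := h'.cd
    have e5 := h'.ad
    rcases e1 with e1 | e1
    · exact e3 e1
    · rcases e2 with e2 | e2
      · exact e4 e2.symm
      · exact e5 (e1.trans e2.symm)
  · by_cases hyc : y = c
    · subst hyc
      have : ∀ u, G.Adj a u → u = y ∨ u = b := by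
        intro u hu
        by_cases huy : u = y
        · exact Or.inl huy
        · rcases (h.hc u).1 (hy u hu huy) with h1 | h1 | h1
          · exact absurd (h1 ▸ hu) G.irrefl
          · exact Or.inr h1
          · exact absurd (h1 ▸ hu) had
      have e1 := this x h'.adj_ab.symm
      have e2 := this z h'.adj_bd
      have e3 := h'.ac
      have e4 := h'.cd
      have e5 := h'.ad
      rcases e1 with e1 | e1
      · exact e3 e1
      · rcases e2 with e2 | e2
        · exact e4 e2.symm
        · exact e5 (e1.trans e2.symm)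
    · -- y ≠ b, c: y is adjacent to b, so y ∈ N(b) = {a, c, d}
      have h1 := hy b h.adj_ab (Ne.symm hyb)
      rcases (h.hb y).1 h1.symm with h2 | h2 | h2
      · exact absurd (h2 ▸ hay) G.irrefl
      · exact hyc h2
      · exact had (h2 ▸ hay)

lemma Dia.hasOut_d {a b c d : V} (hL : Local G) (h : Dia G a b c d) (had : ¬ G.Adj a d) :
    HasOut G d := h.reverse.hasOut_a hL (fun h' => had h'.symm)

/-- A vertex with an outer neighbour and an inner neighbour without one is the end of a
diamond. -/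
lemma Local.end_structure (hL : Local G) {a b : V} (ha : HasOut G a) (hab : In G a b)
    (hb : ¬ HasOut G b) : ∃ c d, Dia G a b c d ∧ ¬ G.Adj a d := by
  obtain ⟨x, y, z, h⟩ := hL.dia_of_not_hasOut hb
  have hax := (h.hb a).1 hab.1.symm
  have hxz : ¬ G.Adj x z := by
    intro hxz
    rcases hax with rfl | rfl | rfl
    · exact h.not_hasOut_a hL hxz ha
    · exact h.not_hasOut_c ha
    · exact h.reverse.not_hasOut_a hL hxz.symm ha
  rcases hax with rfl | rfl | rfl
  · exact ⟨y, z, h, hxz⟩
  · exact absurd ha h.not_hasOut_c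
  · exact ⟨y, x, h.reverse, fun h' => hxz h'.symm⟩

/-- The third vertex of a triangle two of whose vertices have outer neighbours also has one. -/
lemma Local.hasOut_third (hL : Local G) {p q r : V} (hp : HasOut G p) (hq : HasOut G q)
    (hpq : G.Adj p q) (hpr : G.Adj p r) (hqr : G.Adj q r) : HasOut G r := by
  by_contra hr
  have hin : In G p r := ⟨hpr, q, hpq, hqr.symm⟩
  obtain ⟨c, d, h, had⟩ := hL.end_structure hp hin hr
  rcases (h.hb q).1 hqr.symm with h1 | h1 | h1
  · exact absurd (h1 ▸ hpq) G.irrefl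
  · exact h.not_hasOut_c (h1 ▸ hq)
  · exact had (h1 ▸ hpq)

/-- Same unit: the equivalence relation generated by triangle edges. -/
def SU (G : SimpleGraph V) (x y : V) : Prop := Relation.ReflTransGen (In G) x y

lemma SU.refl (x : V) : SU G x x := Relation.ReflTransGen.refl
lemma SU.trans {x y z : V} (h1 : SU G x y) (h2 : SU G y z) : SU G x z :=
  Relation.ReflTransGen.trans h1 h2
lemma In.su {x y : V} (h : In G x y) : SU G x y := Relation.ReflTransGen.single h
lemma SU.symm {x y : V} (h : SU G x y) : SU G y x := by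
  induction h with
  | refl => exact SU.refl _
  | tail _ hbc ih => exact hbc.symm.su.trans ih

/-- A set closed under triangle edges contains the unit of each of its points. -/
lemma SU.mem_of_closed {x y : V} (h : SU G x y) {S : Set V} (hS : ∀ a b, In G a b → a ∈ S → b ∈ S)
    (hx : x ∈ S) : y ∈ S := by
  induction h with
  | refl => exact hx
  | tail _ hbc ih => exact hS _ _ hbc ih

/-- Triangle type: the vertex and its inner neighbours have outer neighbours. -/
def TT (G : SimpleGraph V) (x : V) : Prop := HasOut G x ∧ ∀ y, In G x y → HasOut G y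

lemma Local.TT_of (hL : Local G) {p q : V} (hp : HasOut G p) (hq : HasOut G q) (hpq : In G p q) :
    TT G p := by
  refine ⟨hp, fun y hy => ?_⟩
  obtain ⟨p', hp'⟩ := hp
  obtain ⟨r, hqr, h2, h3, h4, h5, hN⟩ := hL.out_structure' hp' hpq
  rcases (hN y).1 hy.1 with h | h | h
  · rw [h]; exact hq
  · rw [h]; exact hL.hasOut_third ⟨p', hp'⟩ hq hpq.1 h2.1 h3.1
  · exact absurd hp' (by rw [← h]; exact hy.not_out)

lemma Local.TT_in (hL : Local G) {p q : V} (hp : TT G p) (hpq : In G p q) : TT G q :=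
  hL.TT_of (hp.2 q hpq) hp.1 hpq.symm

lemma Local.TT_su (hL : Local G) {p q : V} (hp : TT G p) (hpq : SU G p q) : TT G q :=
  hpq.mem_of_closed (S := {x | TT G x}) (fun _ _ hab ha => hL.TT_in ha hab) hp

/-- Structure of a triangle type unit. -/
lemma Local.TT_structure (hL : Local G) {p : V} (hp : TT G p) :
    ∃ q r p', q ≠ r ∧ In G p q ∧ In G p r ∧ In G q r ∧ Out G p p' ∧
      (∀ w, G.Adj p w ↔ w = q ∨ w = r ∨ w = p') ∧ (∀ y, SU G p y ↔ y = p ∨ y = q ∨ y = r) := by
  obtain ⟨⟨p', hp'⟩, hpin⟩ := hp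
  obtain ⟨q, r, hqr, h1, h2, h3, h4, h5, hN⟩ := hL.out_structure hp'
  obtain ⟨q', hq'⟩ := hpin q h1
  obtain ⟨r', hr'⟩ := hpin r h2
  refine ⟨q, r, p', hqr, h1, h2, h3, hp', hN, fun y => ?_⟩
  constructor
  · intro hy
    refine hy.mem_of_closed (S := {y | y = p ∨ y = q ∨ y = r}) ?_ (Or.inl rfl)
    rintro a b hab (rfl | rfl | rfl)
    · rcases (hN b).1 hab.1 with h | h | h
      · exact Or.inr (Or.inl h)
      · exact Or.inr (Or.inr h)
      · exact absurd hp' (by rw [← h]; exact hab.not_out)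
    · obtain ⟨y, k1, k2, k3, k4, k5, kN⟩ := hL.out_structure' hq' h1.symm
      have : y = r := by
        rcases (kN r).1 h3.1 with h | h | h
        · exact absurd h h2.ne.symm
        · exact h.symm
        · exact absurd hq' (by rw [← h]; exact h3.not_out)
      rcases (kN b).1 hab.1 with h | h | h
      · exact Or.inl h
      · exact Or.inr (Or.inr (h.trans this))
      · exact absurd hq' (by rw [← h]; exact hab.not_out)
    · obtain ⟨y, k1, k2, k3, k4, k5, kN⟩ := hL.out_structure' hr' h2.symm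
      have : y = q := by
        rcases (kN q).1 h3.symm.1 with h | h | h
        · exact absurd h h1.ne.symm
        · exact h.symm
        · exact absurd hr' (by rw [← h]; exact h3.symm.not_out)
      rcases (kN b).1 hab.1 with h | h | h
      · exact Or.inl h
      · exact Or.inr (Or.inl (h.trans this))
      · exact absurd hr' (by rw [← h]; exact hab.not_out)
  · rintro (rfl | rfl | rfl)
    · exact SU.refl _
    · exact h1.su
    · exact h2.su

/-- The unit of a diamond consists of its four vertices. -/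
lemma Dia.su (hL : Local G) {a b c d : V} (h : Dia G a b c d) (y : V) :
    SU G b y ↔ y = a ∨ y = b ∨ y = c ∨ y = d := by
  constructor
  · intro hy
    refine hy.mem_of_closed (S := {y | y = a ∨ y = b ∨ y = c ∨ y = d}) ?_
      (Or.inr (Or.inl rfl))
    have key : ∀ {a b c d : V}, Dia G a b c d → ∀ w, In G a w → w = b ∨ w = c ∨ w = d := by
      intro a b c d h w hw
      by_cases had : G.Adj a d
      · exact (hL.nbrs h.adj_ab h.adj_ac had h.bc h.bd h.cd w).1 hw.1
      · obtain ⟨a', ha'⟩ := h.hasOut_a hL had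
        obtain ⟨y, k1, k2, k3, k4, k5, kN⟩ := hL.out_structure' ha' h.in_ab
        have : y = c := by
          rcases (kN c).1 h.adj_ac with h' | h' | h'
          · exact absurd h'.symm h.bc
          · exact h'.symm
          · exact absurd ha' (by rw [← h']; exact h.in_ac.not_out)
        rcases (kN w).1 hw.1 with h' | h' | h'
        · exact Or.inl h'
        · exact Or.inr (Or.inl (h'.trans this))
        · exact absurd ha' (by rw [← h']; exact hw.not_out)
    rintro u w huw (rfl | rfl | rfl | rfl)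
    · have := key h w huw
      simp only [Set.mem_ofPred_eq]; tauto
    · have := (h.hb w).1 huw.1
      simp only [Set.mem_ofPred_eq]; tauto
    · have := (h.hc w).1 huw.1
      simp only [Set.mem_ofPred_eq]; tauto
    · have := key h.reverse w huw
      simp only [Set.mem_ofPred_eq]; tauto
  · rintro (rfl | rfl | rfl | rfl)
    · exact h.in_ab.symm.su
    · exact SU.refl _
    · exact h.in_bc.su
    · exact h.in_bd.su

/-- A vertex not of triangle type lies in a diamond. -/
lemma Local.dia_of_not_TT (hL : Local G) {x : V} (h : ¬ TT G x) :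
    ∃ a b c d, Dia G a b c d ∧ SU G b x := by
  by_cases hx : HasOut G x
  · have : ∃ y, In G x y ∧ ¬ HasOut G y := by
      by_contra hcon
      push Not at hcon
      exact h ⟨hx, hcon⟩
    obtain ⟨y, hy1, hy2⟩ := this
    obtain ⟨c, d, hd, -⟩ := hL.end_structure hx hy1 hy2
    exact ⟨x, y, c, d, hd, hy1.symm.su⟩
  · obtain ⟨a, c, d, hd⟩ := hL.dia_of_not_hasOut hx
    exact ⟨a, x, c, d, hd, SU.refl _⟩

/-- Outer edges join different units. -/
lemma Local.not_su_of_out (hL : Local G) {x y : V} (h : Out G x y) : ¬ SU G x y := by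
  intro hsu
  by_cases hT : TT G x
  · obtain ⟨q, r, p', hqr, h1, h2, h3, h4, hN, hS⟩ := hL.TT_structure hT
    rcases (hS y).1 hsu with rfl | rfl | rfl
    · exact h.ne rfl
    · exact h1.not_out h
    · exact h2.not_out h
  · obtain ⟨a, b, c, d, hd, hbx⟩ := hL.dia_of_not_TT hT
    have hx := (hd.su hL x).1 hbx
    have hy := (hd.su hL y).1 (hbx.trans hsu)
    have hadj := h.1
    rcases hx with rfl | rfl | rfl | rfl
    · rcases hy with rfl | rfl | rfl | rfl
      · exact h.ne rfl
      · exact hd.in_ab.not_out h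
      · exact hd.in_ac.not_out h
      · exact hd.not_hasOut_a hL hadj ⟨_, h⟩
    · exact hd.not_hasOut_b ⟨_, h⟩
    · exact hd.not_hasOut_c ⟨_, h⟩
    · rcases hy with rfl | rfl | rfl | rfl
      · exact hd.reverse.not_hasOut_a hL hadj ⟨_, h⟩
      · exact hd.in_bd.symm.not_out h
      · exact hd.in_cd.symm.not_out h
      · exact h.ne rfl

end Pool.Agent.Helper54.ClawFree
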