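import Pool.Agent.Helper54.ClawFree.Redirect

/-!
# Existence of configurations and the main theorem
-/

namespace Pool.Agent.Helper54.ClawFree

/-- Two fixed point free involutions have a common proper two-colouring. -/
lemma two_involutions {K : Type*} (σ τ : K → K) (hσ : ∀ x, σ (σ x) = x)
    (hτ : ∀ x, τ (τ x) = x) (hσ' : ∀ x, σ x ≠ x) (hτ' : ∀ x, τ x ≠ x) :
    ∃ g : K → Bool, ∀ x, g (σ x) = !g x ∧ g (τ x) = !g x := by
  classical
  let s : Equiv.Perm K := ⟨σ, σ, hσ, hσ⟩
  let t : Equiv.Perm K := ⟨τ, τ, hτ, hτ⟩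
  let π : Equiv.Perm K := s * t
  have hss : s * s = 1 := by ext x; exact hσ x
  have htt : t * t = 1 := by ext x; exact hτ x
  have hsinv : s⁻¹ = s := by rw [inv_eq_iff_mul_eq_one]; exact hss
  have htinv : t⁻¹ = t := by rw [inv_eq_iff_mul_eq_one]; exact htt
  have hπinv : π⁻¹ = t * s := by
    simp only [π, mul_inv_rev, hsinv, htinv]
  have hconj : s * π * s⁻¹ = π⁻¹ := by
    rw [hπinv, hsinv]
    simp only [π]
    rw [← mul_assoc s s t, hss, one_mul]
  have hconjz : ∀ j : ℤ, s * π ^ j = π ^ (-j) * s := by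
    intro j
    have h1 : s * π ^ j * s⁻¹ = (s * π * s⁻¹) ^ j := by
      rw [conj_zpow]
    rw [hconj] at h1
    have h2 : s * π ^ j = (π⁻¹) ^ j * s := by
      rw [← h1]; group
    rw [h2, inv_zpow']
  have hconjx : ∀ (j : ℤ) (x : K), s ((π ^ j) x) = (π ^ (-j)) (s x) := by
    intro j x
    have := congrArg (fun e : Equiv.Perm K => e x) (hconjz j)
    simpa using this
  have hπ : ∀ x, π x = s (t x) := fun x => rfl
  have hno : ∀ x, ¬ π.SameCycle x (s x) := by
    rintro x ⟨i, hi⟩
    rcases Int.even_or_odd' i with ⟨j, hj | hj⟩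
    · -- i = 2 * j
      have h1 : (π ^ j) x = s ((π ^ j) x) := by
        rw [hconjx j x, ← hi, hj, ← Equiv.Perm.mul_apply, ← zpow_add]
        congr 2; ring
      exact hσ' _ h1.symm
    · have h1 : π ((π ^ j) x) = s ((π ^ j) x) := by
        have e1 : (π ^ (-j)) ((π ^ (2 * j + 1)) x) = (π ^ (-j + (2 * j + 1))) x := by
          rw [zpow_add π (-j) (2 * j + 1)]; rfl
        have e2 : π ((π ^ j) x) = (π ^ (1 + j)) x := by
          rw [zpow_add, zpow_one]; rfl
        rw [hconjx j x, ← hi, hj, e1, e2]
        congr 2; ring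
      rw [hπ] at h1
      exact hτ' _ (s.injective h1)
  have hs_cycle : ∀ x y, π.SameCycle x y → π.SameCycle (s x) (s y) := by
    rintro x y ⟨i, hi⟩
    exact ⟨-i, by rw [← hi, hconjx]⟩
  have hs2 : ∀ x, s (s x) = x := hσ
  let r : Setoid K :=
    { r := fun x y => π.SameCycle x y ∨ π.SameCycle (s x) y
      iseqv := by
        refine ⟨fun x => Or.inl (Equiv.Perm.SameCycle.refl _ _), ?_, ?_⟩
        · rintro x y (h | h)
          · exact Or.inl h.symm
          · have := hs_cycle _ _ h
            rw [hs2] at this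
            exact Or.inr this.symm
        · rintro x y z (h | h) (h' | h')
          · exact Or.inl (h.trans h')
          · exact Or.inr ((hs_cycle _ _ h).trans h')
          · exact Or.inr (h.trans h')
          · have := hs_cycle _ _ h
            rw [hs2] at this
            exact Or.inl (this.trans h') }
  let rep : K → K := fun x => (Quotient.mk r x).out
  have hrep : ∀ x, π.SameCycle (rep x) x ∨ π.SameCycle (s (rep x)) x := fun x =>
    Quotient.mk_out (s := r) x
  have hrep_eq : ∀ x y, (π.SameCycle x y ∨ π.SameCycle (s x) y) → rep x = rep y := by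
    intro x y h
    have : Quotient.mk r x = Quotient.mk r y := Quotient.sound h
    simp only [rep, this]
  let g : K → Bool := fun x => decide (π.SameCycle (rep x) x)
  have gs : ∀ x, g (s x) = !g x := by
    intro x
    have h1 : rep (s x) = rep x :=
      (hrep_eq x (s x) (Or.inr (Equiv.Perm.SameCycle.refl _ _))).symm
    simp only [g, h1]
    by_cases h2 : π.SameCycle (rep x) x
    · have h3 : ¬ π.SameCycle (rep x) (s x) := fun h3 => hno x (h2.symm.trans h3)
      simp [h2, h3]
    · have h3 : π.SameCycle (rep x) (s x) := by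
        have h4 := (hrep x).resolve_left h2
        have h5 := hs_cycle _ _ h4
        rwa [hs2] at h5
      simp [h2, h3]
  have gπ : ∀ x, g (π x) = g x := by
    intro x
    have h0 : π.SameCycle x (π x) := ⟨1, by simp⟩
    have h1 : rep (π x) = rep x := (hrep_eq x (π x) (Or.inl h0)).symm
    simp only [g, h1]
    congr 1
    exact propext ⟨fun h => h.trans h0.symm, fun h => h.trans h0⟩
  refine ⟨g, fun x => ⟨gs x, ?_⟩⟩
  have h1 : τ x = s (π x) := by rw [hπ, hs2]; rfl
  rw [h1, gs, gπ]

variable {V : Type*} {G : SimpleGraph V}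

/-- An optimal configuration is properly coloured. -/
lemma Opt.proper (hL : Local G) [Fintype V] {Y A B : Set V} (hY : GoodY G Y)
    {f : V → Bool} (h : Opt G Y A B f) {v₀ w₀ : V} (hr : RAdj G (A ∪ B) v₀ w₀) :
    f v₀ ≠ f w₀ := by
  classical
  intro hf
  have hTT : ∀ v ∈ Comp G (A ∪ B) v₀, TT G v := fun v hv => h.all_TT hL hY hr hf hv
  -- partners
  have hpart : ∀ v : Comp G (A ∪ B) v₀, ∃ q q' : Comp G (A ∪ B) v₀, In G v q ∧ Out G v q' ∧
      ∀ w ∈ Comp G (A ∪ B) v₀, In G v w → w = q := by
    rintro ⟨v, hv⟩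
    have hvS := h.not_mem hL hr hf hv
    obtain ⟨q, r, p', hqr, h1, h2, h3, h4, h5, h6⟩ := hL.TT_structure (hTT v hv)
    have key : ∀ q r : V, q ≠ r → In G v q → In G v r → r ∈ A ∪ B →
        (q ∈ Comp G (A ∪ B) v₀ ∧ p' ∈ Comp G (A ∪ B) v₀ ∧
          ∀ w ∈ Comp G (A ∪ B) v₀, In G v w → w = q) := by
      intro q r hqr hq hr' hrS
      have hN := hL.out_nbrs h4 hr' hq hqr.symm
      obtain ⟨-, k1, k2⟩ := h.nbrs_of_removed hL hr hf hv hN hrS
      refine ⟨Comp.closed hv k1, Comp.closed hv k2, fun w hw hvw => ?_⟩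
      rcases (hN w).1 hvw.1 with h7 | h7 | h7
      · exact absurd (h7 ▸ hrS) (h.not_mem hL hr hf hw)
      · exact h7
      · exact absurd h7 (hvw.hasOut_ne h4)
    rcases h.valid.tri v q r h1.1 h3.1 h2.1 with h7 | h7 | h7
    · exact absurd h7 hvS
    · obtain ⟨k1, k2, k3⟩ := key r q hqr.symm h2 h1 h7
      exact ⟨⟨r, k1⟩, ⟨p', k2⟩, h2, h4, k3⟩
    · obtain ⟨k1, k2, k3⟩ := key q r hqr h1 h2 h7
      exact ⟨⟨q, k1⟩, ⟨p', k2⟩, h1, h4, k3⟩
  choose σ τ hσ hτ huniq using hpart
  obtain ⟨g, hg⟩ := two_involutions σ τ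
    (fun x => Subtype.ext (huniq (σ x) x x.2 (hσ x).symm).symm)
    (fun x => Subtype.ext (hL.out_unique (hτ (τ x)) (hτ x).symm))
    (fun x hx => (hσ x).ne (congrArg Subtype.val hx).symm)
    (fun x hx => (hτ x).ne (congrArg Subtype.val hx).symm)
  set f' : V → Bool := fun x => if hx : x ∈ Comp G (A ∪ B) v₀ then g ⟨x, hx⟩ else f x with hf'
  have hv₀ : v₀ ∈ Comp G (A ∪ B) v₀ := Relation.ReflTransGen.refl
  have hproper : ∀ a b, a ∈ Comp G (A ∪ B) v₀ → RAdj G (A ∪ B) a b → f' a ≠ f' b := by
    intro a b ha hab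
    have hb : b ∈ Comp G (A ∪ B) v₀ := Comp.closed ha hab
    simp only [hf', ha, hb, dif_pos]
    rcases in_or_out hab.1 with h1 | h1
    · have : (⟨b, hb⟩ : Comp G (A ∪ B) v₀) = σ ⟨a, ha⟩ :=
        Subtype.ext (huniq ⟨a, ha⟩ b hb h1)
      rw [this, (hg _).1]
      cases g ⟨a, ha⟩ <;> simp
    · have : (⟨b, hb⟩ : Comp G (A ∪ B) v₀) = τ ⟨a, ha⟩ :=
        Subtype.ext (hL.out_unique h1 (hτ ⟨a, ha⟩))
      rw [this, (hg _).2]
      cases g ⟨a, ha⟩ <;> simp
  refine h.not_ssubset (g := f') (p := (v₀, w₀)) h.valid ?_ (mem_mono.2 ⟨hr, hf⟩) ?_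
  · rintro ⟨a, b⟩ hab
    obtain ⟨h1, h2⟩ := mem_mono.1 hab
    simp only at h1 h2
    by_cases ha : a ∈ Comp G (A ∪ B) v₀
    · exact absurd h2 (hproper a b ha h1)
    · have hb : b ∉ Comp G (A ∪ B) v₀ := fun hb => ha (Comp.closed hb h1.symm)
      simp only [hf', ha, hb, dif_neg, not_false_eq_true] at h2
      exact mem_mono.2 ⟨h1, h2⟩
  · intro h5
    exact hproper v₀ w₀ hv₀ hr (mem_mono.1 h5).2

/-- There is a maximal independent set of units. -/
lemma exists_goodY (hL : Local G) [Finite V] : ∃ Y, GoodY G Y := by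
  classical
  let P : Set (Set V) := {Y | (∀ x y, In G x y → x ∈ Y → y ∈ Y) ∧
    (∀ x y, Out G x y → x ∈ Y → y ∉ Y)}
  have hP : P.Nonempty := ⟨∅, by simp [P]⟩
  obtain ⟨Y, hY⟩ := (Set.toFinite P).exists_maximal hP
  refine ⟨Y, hY.prop.1, hY.prop.2, fun x hx => ?_⟩
  by_contra hcon
  push Not at hcon
  have hmem : Y ∪ {y | SU G x y} ∈ P := by
    refine ⟨?_, ?_⟩
    · rintro a b hab (ha | ha)
      · exact Or.inl (hY.prop.1 a b hab ha)
      · exact Or.inr (SU.trans ha hab.su)
    · rintro a b hab (ha | ha) (hb | hb)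
      · exact hY.prop.2 a b hab ha hb
      · exact hcon b a hb hab.symm ha
      · exact hcon a b ha hab hb
      · exact hL.not_su_of_out hab (SU.trans (SU.symm ha) hb)
  have := hY.le_of_ge hmem Set.subset_union_left
  exact hx (this (Or.inr (SU.refl x)))

/-- The setoid of units. -/
def unitSetoid (G : SimpleGraph V) : Setoid V :=
  ⟨SU G, ⟨SU.refl, SU.symm, SU.trans⟩⟩

lemma unit_eq {x y : V} :
    Quotient.mk (unitSetoid G) x = Quotient.mk (unitSetoid G) y ↔ SU G x y :=
  Quotient.eq (r := unitSetoid G)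

open scoped Classical in
/-- The target of a vertex: the unit of its outer neighbour if that is of triangle type, and
the outer neighbour itself otherwise. -/
noncomputable def target (G : SimpleGraph V) (x : V) : Quotient (unitSetoid G) ⊕ V :=
  if h : HasOut G x then
    (if TT G h.choose then Sum.inl (Quotient.mk (unitSetoid G) h.choose) else Sum.inr h.choose)
  else Sum.inr x

lemma target_eq (hL : Local G) {x x' : V} (h : Out G x x') :
    (TT G x' → target G x = Sum.inl (Quotient.mk (unitSetoid G) x')) ∧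
      (¬ TT G x' → target G x = Sum.inr x') := by
  have hx : HasOut G x := ⟨x', h⟩
  have : hx.choose = x' := hL.out_unique hx.choose_spec h
  constructor
  · intro hT
    simp [target, hx, this, hT]
  · intro hT
    simp [target, hx, this, hT]

/-- Hall's theorem: the triangle type units can be matched to their outer neighbours in such a
way that no two of them use the same triangle. -/
lemma exists_hall (hL : Local G) [Fintype V] :
    ∃ s : V → V, (∀ x, TT G x → SU G x (s x)) ∧
      (∀ x y, SU G x y → s x = s y) ∧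
      (∀ x y x' y', TT G x → TT G y → ¬ SU G x y → Out G (s x) x' → Out G (s y) y' →
        ¬ In G x' y') := by
  classical
  let U := Quotient (unitSetoid G)
  let ι := {u : U // ∃ x, Quotient.mk (unitSetoid G) x = u ∧ TT G x}
  let F : U → Finset V := fun u => Finset.univ.filter (fun x => Quotient.mk (unitSetoid G) x = u)
  have memF : ∀ u x, x ∈ F u ↔ Quotient.mk (unitSetoid G) x = u := by
    intro u x; simp [F]
  have cardF : ∀ x, TT G x → (F (Quotient.mk (unitSetoid G) x)).card = 3 := by
    intro x hx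
    obtain ⟨q, r, p', hqr, h1, h2, h3, h4, h5, h6⟩ := hL.TT_structure hx
    have : F (Quotient.mk (unitSetoid G) x) = {x, q, r} := by
      ext y
      rw [memF, unit_eq]
      simp only [Finset.mem_insert, Finset.mem_singleton]
      rw [← h6 y]
      exact ⟨SU.symm, SU.symm⟩
    rw [this]
    exact Finset.card_eq_three.2 ⟨x, q, r, h1.ne, h2.ne, hqr, rfl⟩
  let t : ι → Finset (U ⊕ V) := fun u => (F u.1).image (target G)
  have hall : ∀ s : Finset ι, s.card ≤ (s.biUnion t).card := by
    intro s
    let P : Finset V := s.biUnion (fun u => F u.1)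
    have hP1 : P.card = s.card * 3 := by
      rw [Finset.card_biUnion]
      · refine Finset.sum_const_nat ?_
        rintro ⟨u, x, rfl, hx⟩ -
        exact cardF x hx
      · intro u _ v _ huv
        rw [Function.onFun, Finset.disjoint_left]
        intro x hx hx'
        rw [memF] at hx hx'
        exact huv (Subtype.ext (hx.symm.trans hx'))
    have hPT : ∀ x ∈ P, TT G x := by
      intro x hx
      obtain ⟨u, -, hu⟩ := Finset.mem_biUnion.1 hx
      obtain ⟨y, hy1, hy2⟩ := u.2
      rw [memF, ← hy1, unit_eq] at hu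
      exact hL.TT_su hy2 hu.symm
    have hP2 : P.card ≤ 3 * (P.image (target G)).card := by
      refine Finset.card_le_mul_card_image P 3 ?_
      intro a ha
      have houtP : ∀ x ∈ P, ∃ x', Out G x x' := fun x hx => (hPT x hx).1
      rcases a with w | v
      · -- the fibre over a unit
        obtain ⟨x₀, hx₀, hx₀t⟩ := Finset.mem_image.1 ha
        obtain ⟨x₀', hx₀'⟩ := houtP x₀ hx₀
        have hT₀ : TT G x₀' := by
          by_contra hT
          rw [(target_eq hL hx₀').2 hT] at hx₀t
          simp at hx₀t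
        have hw : Quotient.mk (unitSetoid G) x₀' = w := by
          rw [(target_eq hL hx₀').1 hT₀] at hx₀t
          exact Sum.inl.inj hx₀t
        rw [← hw, ← cardF x₀' hT₀]
        let o : V → V := fun x => if h : HasOut G x then h.choose else x
        have ho : ∀ x ∈ P, Out G x (o x) := by
          intro x hx
          have hx' : HasOut G x := houtP x hx
          simp only [o, hx', dif_pos]
          exact hx'.choose_spec
        refine Finset.card_le_card_of_injOn o ?_ ?_
        · intro x hx
          simp only [Finset.coe_filter, Set.mem_ofPred_eq] at hx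
          rw [Finset.mem_coe, memF]
          by_cases hT : TT G (o x)
          · have := (target_eq hL (ho x hx.1)).1 hT
            rw [hx.2] at this
            exact (Sum.inl.inj this).symm
          · have := (target_eq hL (ho x hx.1)).2 hT
            rw [hx.2] at this
            simp at this
        · intro x hx y hy hxy
          simp only [Finset.coe_filter, Set.mem_ofPred_eq] at hx hy
          exact hL.out_unique (hxy ▸ (ho x hx.1).symm) (ho y hy.1).symm
      · -- the fibre over a vertex
        refine le_trans (Finset.card_le_one.2 ?_) (by norm_num)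
        intro x hx y hy
        rw [Finset.mem_filter] at hx hy
        obtain ⟨x', hx'⟩ := houtP x hx.1
        obtain ⟨y', hy'⟩ := houtP y hy.1
        have e1 : x' = v := by
          by_cases hT : TT G x'
          · have := (target_eq hL hx').1 hT
            rw [hx.2] at this; simp at this
          · have := (target_eq hL hx').2 hT
            rw [hx.2] at this; exact (Sum.inr.inj this).symm
        have e2 : y' = v := by
          by_cases hT : TT G y'
          · have := (target_eq hL hy').1 hT
            rw [hy.2] at this; simp at this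
          · have := (target_eq hL hy').2 hT
            rw [hy.2] at this; exact (Sum.inr.inj this).symm
        subst e1
        subst e2
        exact hL.out_unique hx'.symm hy'.symm
    have hP3 : P.image (target G) = s.biUnion t := by
      simp only [P, t]
      rw [Finset.biUnion_image]
    rw [hP3] at hP2
    omega
  obtain ⟨φ, hφinj, hφmem⟩ := (Finset.all_card_le_biUnion_card_iff_exists_injective t).1 hall
  have hsel : ∀ u : ι, ∃ x, x ∈ F u.1 ∧ target G x = φ u := by
    intro u
    obtain ⟨x, hx, hx'⟩ := Finset.mem_image.1 (hφmem u)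
    exact ⟨x, hx, hx'⟩
  choose sel hsel1 hsel2 using hsel
  refine ⟨fun x => if h : ∃ y, Quotient.mk (unitSetoid G) y = Quotient.mk (unitSetoid G) x ∧ TT G y
    then sel ⟨Quotient.mk (unitSetoid G) x, h⟩ else
      (Quotient.mk (unitSetoid G) x).out, ?_, ?_, ?_⟩
  · intro x hx
    have h : ∃ y, Quotient.mk (unitSetoid G) y = Quotient.mk (unitSetoid G) x ∧ TT G y :=
      ⟨x, rfl, hx⟩
    simp only [h, dif_pos]
    have := (memF _ _).1 (hsel1 ⟨Quotient.mk (unitSetoid G) x, h⟩)
    exact (unit_eq.1 this).symm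
  · intro x y hxy
    have : Quotient.mk (unitSetoid G) x = Quotient.mk (unitSetoid G) y := unit_eq.2 hxy
    simp only [this]
  · intro x y x' y' hx hy hxy hox hoy hin
    have h : ∃ z, Quotient.mk (unitSetoid G) z = Quotient.mk (unitSetoid G) x ∧ TT G z :=
      ⟨x, rfl, hx⟩
    have h' : ∃ z, Quotient.mk (unitSetoid G) z = Quotient.mk (unitSetoid G) y ∧ TT G z :=
      ⟨y, rfl, hy⟩
    simp only [h, h', dif_pos] at hox hoy
    have hTx' : TT G x' := hL.TT_of ⟨_, hox.symm⟩ ⟨_, hoy.symm⟩ hin
    have hTy' : TT G y' := hL.TT_in hTx' hin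
    have e1 := (target_eq hL hox).1 hTx'
    have e2 := (target_eq hL hoy).1 hTy'
    rw [hsel2] at e1 e2
    rw [unit_eq.2 hin.su] at e1
    have := hφinj (e1.trans e2.symm)
    have := congrArg Subtype.val this
    exact hxy (unit_eq.1 this)

/-- There is a valid configuration. -/
lemma exists_valid (hL : Local G) [Fintype V] {Y : Set V} (hY : GoodY G Y) :
    ∃ A B, Valid G Y A B := by
  classical
  obtain ⟨s₀, hs1, hs2, hs3⟩ := exists_hall hL
  -- the selected vertex of every unit
  let U := Quotient (unitSetoid G)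
  let rep : V → V := fun x => (Quotient.mk (unitSetoid G) x).out
  have hrep : ∀ x, SU G (rep x) x := fun x => Quotient.mk_out (s := unitSetoid G) x
  have hrep_eq : ∀ x y, SU G x y → rep x = rep y := by
    intro x y h
    have : Quotient.mk (unitSetoid G) x = Quotient.mk (unitSetoid G) y := unit_eq.2 h
    simp only [rep, this]
  have hselex : ∀ x, ∃ y, SU G x y ∧ (¬ TT G x → ¬ HasOut G y) ∧
      (TT G x → x ∉ Y → ∃ z, Out G y z ∧ z ∈ Y) ∧ (TT G x → x ∈ Y → y = s₀ x) := by
    intro x
    by_cases hT : TT G x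
    · by_cases hxY : x ∈ Y
      · exact ⟨s₀ x, hs1 x hT, fun h => absurd hT h, fun _ h => absurd hxY h, fun _ _ => rfl⟩
      · obtain ⟨y, z, h1, h2, h3⟩ := hY.ymax x hxY
        exact ⟨y, h1, fun h => absurd hT h, fun _ _ => ⟨z, h2, h3⟩, fun _ h => absurd h hxY⟩
    · obtain ⟨a, b, c, d, hd, hbx⟩ := hL.dia_of_not_TT hT
      exact ⟨b, hbx.symm, fun _ => hd.not_hasOut_b, fun h => absurd h hT,
        fun h => absurd h hT⟩
  choose sel0 hsel0 using hselex
  let sel : V → V := fun x => sel0 (rep x)
  have sel_eq : ∀ x y, SU G x y → sel x = sel y := fun x y h => by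
    simp only [sel, hrep_eq x y h]
  have sel_su : ∀ x, SU G x (sel x) := fun x => (hrep x).symm.trans (hsel0 (rep x)).1
  have sel_notT : ∀ x, ¬ TT G x → ¬ HasOut G (sel x) := fun x hx =>
    (hsel0 (rep x)).2.1 (fun h => hx (hL.TT_su h (hrep x)))
  have sel_X : ∀ x, TT G x → x ∉ Y → ∃ z, Out G (sel x) z ∧ z ∈ Y := fun x hx hxY =>
    (hsel0 (rep x)).2.2.1 (hL.TT_su hx (hrep x).symm) (fun h => hxY (hY.su (hrep x) h))
  have sel_Y : ∀ x, TT G x → x ∈ Y → sel x = s₀ x := fun x hx hxY => by
    rw [← hs2 _ _ (hrep x)]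
    exact (hsel0 (rep x)).2.2.2 (hL.TT_su hx (hrep x).symm) (hY.su (hrep x).symm hxY)
  -- the auxiliary vertex of a unit that is not of triangle type
  have hauxex : ∀ x, ∃ y, ¬ TT G x → (SU G x y ∧ y ≠ sel x) := by
    intro x
    by_cases hT : TT G x
    · exact ⟨x, fun h => absurd hT h⟩
    · obtain ⟨a, b, c, d, hd, hbx⟩ := hL.dia_of_not_TT hT
      by_cases h : b = sel x
      · exact ⟨c, fun _ => ⟨hbx.symm.trans hd.in_bc.su, fun h' => hd.bc (h.trans h'.symm)⟩⟩
      · exact ⟨b, fun _ => ⟨hbx.symm, h⟩⟩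
  choose aux0 haux0 using hauxex
  let aux : V → V := fun x => aux0 (rep x)
  have aux_eq : ∀ x y, SU G x y → aux x = aux y := fun x y h => by
    simp only [aux, hrep_eq x y h]
  have aux_spec : ∀ x, ¬ TT G x → SU G x (aux x) ∧ aux x ≠ sel x := fun x hx => by
    have h1 := haux0 (rep x) (fun h => hx (hL.TT_su h (hrep x)))
    refine ⟨(hrep x).symm.trans h1.1, ?_⟩
    rw [← sel_eq _ _ (hrep x)]
    exact h1.2
  -- units without outer edges
  let Q : V → Prop := fun x => ∀ y, SU G x y → ¬ HasOut G y
  have Q_su : ∀ x y, SU G x y → Q x → Q y := fun x y h hx z hz => hx z (h.trans hz)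
  have Q_Y : ∀ x, Q x → x ∈ Y := by
    intro x hx
    by_contra hxY
    obtain ⟨y, z, h1, h2, -⟩ := hY.ymax x hxY
    exact hx y h1 ⟨z, h2⟩
  have Q_T : ∀ x, Q x → ¬ TT G x := fun x hx hT => hx x (SU.refl x) hT.1
  have hself : ∀ x, Q x → ¬ HasOut G x := fun x hx => hx x (SU.refl x)
  -- membership helper
  have selmem : ∀ x, sel x ∈ {x | x = sel x ∧ (x ∉ Y ∨ Q x)} ∪
      {x | (x = sel x ∧ x ∈ Y ∧ ¬ Q x) ∨ (x = aux x ∧ Q x)} := by
    intro x
    have h1 : sel x = sel (sel x) := sel_eq _ _ (sel_su x)
    by_cases h2 : sel x ∉ Y ∨ Q (sel x)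
    · exact Or.inl ⟨h1, h2⟩
    · push Not at h2
      exact Or.inr (Or.inl ⟨h1, h2⟩)
  refine ⟨{x | x = sel x ∧ (x ∉ Y ∨ Q x)},
    {x | (x = sel x ∧ x ∈ Y ∧ ¬ Q x) ∨ (x = aux x ∧ Q x)}, ?_, ?_, ?_, ?_, ?_, ?_, ?_, ?_, ?_, ?_⟩
  · rintro x ⟨h1, h2⟩ (⟨h3, h4, h5⟩ | ⟨h3, h4⟩)
    · tauto
    · exact (aux_spec x (Q_T x h4)).2 (h3.symm.trans h1)
  · rintro x ⟨h1, -⟩ y ⟨h2, -⟩ hxy
    rw [h1, h2]; exact sel_eq x y hxy
  · rintro x (⟨h1, h2, h3⟩ | ⟨h1, h2⟩) y (⟨k1, k2, k3⟩ | ⟨k1, k2⟩) hxy
    · rw [h1, k1]; exact sel_eq x y hxy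
    · exact absurd (Q_su y x hxy.symm k2) h3
    · exact absurd (Q_su x y hxy h2) k3
    · rw [h1, k1]; exact aux_eq x y hxy
  · rintro x ⟨h1, h2⟩ x' hxx' y ⟨k1, k2⟩ hsu
    have hnQ : ¬ Q x := fun h => hself x h ⟨_, hxx'⟩
    have hxY : x ∉ Y := h2.resolve_right hnQ
    have hT : TT G x := by
      by_contra hT
      have := sel_notT x hT
      rw [← h1] at this
      exact this ⟨_, hxx'⟩
    obtain ⟨z, hz1, hz2⟩ := sel_X x hT hxY
    rw [← h1] at hz1
    have hx'Y : x' ∈ Y := by rw [hL.out_unique hxx' hz1]; exact hz2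
    have hyY : y ∈ Y := hY.su hsu hx'Y
    rcases k2 with k2 | k2
    · exact k2 hyY
    · exact k2 x' hsu.symm ⟨_, hxx'.symm⟩
  · rintro x (⟨h1, h2, h3⟩ | ⟨h1, h2⟩)
    · exact h2
    · exact Q_Y x h2
  · have key : ∀ x x', ((x = sel x ∧ x ∈ Y ∧ ¬ Q x) ∨ (x = aux x ∧ Q x)) → Out G x x' →
        TT G x ∧ x = s₀ x ∧ x = sel x := by
      rintro x x' (⟨h1, h2, h3⟩ | ⟨h1, h2⟩) hxx'
      · have hT : TT G x := by
          by_contra hT
          have := sel_notT x hT
          rw [← h1] at this
          exact this ⟨_, hxx'⟩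
        exact ⟨hT, by rw [← sel_Y x hT h2]; exact h1, h1⟩
      · exact absurd ⟨_, hxx'⟩ (hself x h2)
    intro x hx y hy x' y' hne hxx' hyy' hin
    obtain ⟨h1, h2, h3⟩ := key x x' hx hxx'
    obtain ⟨k1, k2, k3⟩ := key y y' hy hyy'
    refine hs3 x y x' y' h1 k1 ?_ (by rw [← h2]; exact hxx') (by rw [← k2]; exact hyy') hin
    intro hsu
    apply hne
    rw [h3, k3]; exact sel_eq x y hsu
  · intro x y z hxy hyz hxz
    have ixy : In G x y := ⟨hxy, z, hxz, hyz⟩
    have ixz : In G x z := ⟨hxz, y, hxy, hyz.symm⟩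
    by_cases hT : TT G x
    · obtain ⟨q, r, p', hqr, h1, h2, h3, h4, h5, h6⟩ := hL.TT_structure hT
      have hy := (h6 y).1 ixy.su
      have hz := (h6 z).1 ixz.su
      have hs := (h6 (sel x)).1 (sel_su x)
      have hm := selmem x
      have hyx := hxy.ne
      have hzx := hxz.ne
      have hyz' := hyz.ne
      have : sel x = x ∨ sel x = y ∨ sel x = z := by
        rcases hs with hs | hs | hs
        · exact Or.inl hs
        · rcases hy with hy | hy | hy
          · exact absurd hy.symm hyx
          · exact Or.inr (Or.inl (hs.trans hy.symm))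
          · rcases hz with hz | hz | hz
            · exact absurd hz.symm hzx
            · exact Or.inr (Or.inr (hs.trans hz.symm))
            · exact absurd (hy.trans hz.symm) hyz'
        · rcases hy with hy | hy | hy
          · exact absurd hy.symm hyx
          · rcases hz with hz | hz | hz
            · exact absurd hz.symm hzx
            · exact absurd (hy.trans hz.symm) hyz'
            · exact Or.inr (Or.inr (hs.trans hz.symm))
          · exact Or.inr (Or.inl (hs.trans hy.symm))
      rcases this with h | h | h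
      · rw [h] at hm; exact Or.inl hm
      · rw [h] at hm; exact Or.inr (Or.inl hm)
      · rw [h] at hm; exact Or.inr (Or.inr hm)
    · by_cases hmem : sel x = x ∨ sel x = y ∨ sel x = z
      · have hm := selmem x
        rcases hmem with h | h | h
        · rw [h] at hm; exact Or.inl hm
        · rw [h] at hm; exact Or.inr (Or.inl hm)
        · rw [h] at hm; exact Or.inr (Or.inr hm)
      · push Not at hmem
        obtain ⟨a, c, d, hd⟩ := hL.dia_of_not_hasOut (sel_notT x hT)
        have hx := (hd.su hL x).1 (sel_su x).symm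
        have hy := (hd.su hL y).1 ((sel_su x).symm.trans ixy.su)
        have hz := (hd.su hL z).1 ((sel_su x).symm.trans ixz.su)
        have haux := aux_spec x hT
        have hau := (hd.su hL (aux x)).1 ((sel_su x).symm.trans haux.1)
        obtain ⟨m1, m2, m3⟩ := hmem
        have n1 := hxy.ne
        have n2 := hyz.ne
        have n3 := hxz.ne
        have had : G.Adj a d := by
          rcases hx with hx | hx | hx | hx <;> rcases hy with hy | hy | hy | hy <;>
            rcases hz with hz | hz | hz | hz <;>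
            first
            | exact absurd hx.symm m1
            | exact absurd hy.symm m2
            | exact absurd hz.symm m3
            | exact absurd (hx.trans hy.symm) n1
            | exact absurd (hy.trans hz.symm) n2
            | exact absurd (hx.trans hz.symm) n3
            | (rw [← hx, ← hy]; exact hxy)
            | (rw [← hx, ← hy]; exact hxy.symm)
            | (rw [← hx, ← hz]; exact hxz)
            | (rw [← hx, ← hz]; exact hxz.symm)
            | (rw [← hy, ← hz]; exact hyz)
            | (rw [← hy, ← hz]; exact hyz.symm)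
        have hQ : Q x := by
          intro y hy'
          rcases (hd.su hL y).1 ((sel_su x).symm.trans hy') with h | h | h | h
          · rw [h]; exact hd.not_hasOut_a hL had
          · rw [h]; exact hd.not_hasOut_b
          · rw [h]; exact hd.not_hasOut_c
          · rw [h]; exact hd.reverse.not_hasOut_a hL had.symm
        have hQa : Q (aux x) := Q_su _ _ haux.1 hQ
        have haa : aux x = aux (aux x) := aux_eq _ _ haux.1
        have hm : aux x ∈ {x | x = sel x ∧ (x ∉ Y ∨ Q x)} ∪
            {x | (x = sel x ∧ x ∈ Y ∧ ¬ Q x) ∨ (x = aux x ∧ Q x)} :=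
          Or.inr (Or.inr ⟨haa, hQa⟩)
        have : aux x = x ∨ aux x = y ∨ aux x = z := by
          rcases hau with h | h | h | h
          · rcases hx with hx | hx | hx | hx <;> rcases hy with hy | hy | hy | hy <;>
            rcases hz with hz | hz | hz | hz <;>
            first
            | exact absurd hx.symm m1
            | exact absurd hy.symm m2
            | exact absurd hz.symm m3
            | exact absurd (hx.trans hy.symm) n1
            | exact absurd (hy.trans hz.symm) n2
            | exact absurd (hx.trans hz.symm) n3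
            | exact Or.inl (h.trans hx.symm)
            | exact Or.inr (Or.inl (h.trans hy.symm))
            | exact Or.inr (Or.inr (h.trans hz.symm))
          · exact absurd h haux.2
          · rcases hx with hx | hx | hx | hx <;> rcases hy with hy | hy | hy | hy <;>
            rcases hz with hz | hz | hz | hz <;>
            first
            | exact absurd hx.symm m1
            | exact absurd hy.symm m2
            | exact absurd hz.symm m3
            | exact absurd (hx.trans hy.symm) n1
            | exact absurd (hy.trans hz.symm) n2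
            | exact absurd (hx.trans hz.symm) n3
            | exact Or.inl (h.trans hx.symm)
            | exact Or.inr (Or.inl (h.trans hy.symm))
            | exact Or.inr (Or.inr (h.trans hz.symm))
          · rcases hx with hx | hx | hx | hx <;> rcases hy with hy | hy | hy | hy <;>
            rcases hz with hz | hz | hz | hz <;>
            first
            | exact absurd hx.symm m1
            | exact absurd hy.symm m2
            | exact absurd hz.symm m3
            | exact absurd (hx.trans hy.symm) n1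
            | exact absurd (hy.trans hz.symm) n2
            | exact absurd (hx.trans hz.symm) n3
            | exact Or.inl (h.trans hx.symm)
            | exact Or.inr (Or.inl (h.trans hy.symm))
            | exact Or.inr (Or.inr (h.trans hz.symm))
        rcases this with h | h | h
        · rw [h] at hm; exact Or.inl hm
        · rw [h] at hm; exact Or.inr (Or.inl hm)
        · rw [h] at hm; exact Or.inr (Or.inr hm)
  · rintro x ⟨h1, h2⟩ hxY y z hxy hyz
    rcases h2 with h2 | h2
    · exact absurd hxY h2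
    · exact absurd ⟨z, hyz⟩ (h2 y hxy)
  · rintro x ⟨h1, h2⟩ hxY
    rcases h2 with h2 | h2
    · exact absurd hxY h2
    · exact Q_T x h2
  · intro x hx
    by_cases hQ : Q x
    · have haux := aux_spec x (Q_T x hQ)
      exact ⟨aux x, Or.inr ⟨aux_eq _ _ haux.1, Q_su _ _ haux.1 hQ⟩, haux.1⟩
    · exact ⟨sel x, Or.inl ⟨sel_eq _ _ (sel_su x), hY.su (sel_su x) hx,
        fun h => hQ (Q_su _ _ (sel_su x).symm h)⟩, sel_su x⟩

/-- `A` is a `2`-packing: no two of its vertices are at distance at most two. -/
lemma Valid.packA (hL : Local G) {Y A B : Set V} (hv : Valid G Y A B) {x y : V} (hx : x ∈ A)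
    (hy : y ∈ A) (hne : x ≠ y) : ¬ G.Adj x y ∧ ∀ z, G.Adj x z → ¬ G.Adj z y := by
  constructor
  · intro hxy
    rcases in_or_out hxy with h | h
    · exact hne (hv.a1 x hx y hy h.su)
    · exact hv.aOut x hx y h y hy (SU.refl y)
  · intro z hxz hzy
    rcases in_or_out hxz with h1 | h1 <;> rcases in_or_out hzy with h2 | h2
    · exact hne (hv.a1 x hx y hy (h1.su.trans h2.su))
    · exact hv.aOut y hy z h2.symm x hx h1.su.symm
    · exact hv.aOut x hx z h1 y hy h2.su
    · exact hne (hL.out_unique h1.symm h2)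

/-- Vertices of `Y` in different units are not joined by a unit-outer-unit path. -/
lemma GoodY.indep {Y : Set V} (hY : GoodY G Y) {x y z w : V} (hx : x ∈ Y) (hy : y ∈ Y)
    (hxz : SU G x z) (hzw : Out G z w) (hwy : SU G w y) : False :=
  hY.yout z w hzw (hY.su hxz hx) (hY.su hwy.symm hy)

/-- `B` is a `3`-packing: no two of its vertices are at distance at most three. -/
lemma Valid.packB (hL : Local G) {Y A B : Set V} (hY : GoodY G Y) (hv : Valid G Y A B) {x y : V}
    (hx : x ∈ B) (hy : y ∈ B) (hne : x ≠ y) :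
    ¬ G.Adj x y ∧ (∀ z, G.Adj x z → ¬ G.Adj z y) ∧
      (∀ z w, G.Adj x z → G.Adj z w → ¬ G.Adj w y) := by
  have hxY := hv.bY x hx
  have hyY := hv.bY y hy
  have h1 : ¬ G.Adj x y := by
    intro hxy
    rcases in_or_out hxy with h | h
    · exact hne (hv.b1 x hx y hy h.su)
    · exact hY.yout x y h hxY hyY
  refine ⟨h1, ?_, ?_⟩
  · intro z hxz hzy
    rcases in_or_out hxz with h1 | h1 <;> rcases in_or_out hzy with h2 | h2
    · exact hne (hv.b1 x hx y hy (h1.su.trans h2.su))
    · exact hY.indep hxY hyY h1.su h2 (SU.refl y)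
    · exact hY.indep hxY hyY (SU.refl x) h1 h2.su
    · exact hne (hL.out_unique h1.symm h2)
  · intro z w hxz hzw hwy
    rcases in_or_out hxz with h2 | h2 <;> rcases in_or_out hzw with h3 | h3 <;>
      rcases in_or_out hwy with h4 | h4
    · exact hne (hv.b1 x hx y hy (h2.su.trans (h3.su.trans h4.su)))
    · exact hY.indep hxY hyY (h2.su.trans h3.su) h4 (SU.refl y)
    · exact hY.indep hxY hyY h2.su h3 h4.su
    · have : z = y := hL.out_unique h3.symm h4
      exact hne (hv.b1 x hx y hy (this ▸ h2.su))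
    · exact hY.indep hxY hyY (SU.refl x) h2 (h3.su.trans h4.su)
    · exact hv.bOut x hx y hy z w hne h2 h4.symm h3
    · have : x = w := hL.out_unique h2.symm h3
      exact hne (hv.b1 x hx y hy (this ▸ h4.su))
    · have : x = w := hL.out_unique h2.symm h3
      subst this
      exact h1 hwy

/-- The combinatorial core. -/
theorem core (hL : Local G) [Finite V] : ∃ (A B : Set V) (f : V → Bool),
    (∀ x ∈ A, ∀ y ∈ A, x ≠ y → ¬ G.Adj x y ∧ ∀ z, G.Adj x z → ¬ G.Adj z y) ∧
    (∀ x ∈ B, ∀ y ∈ B, x ≠ y → ¬ G.Adj x y ∧ (∀ z, G.Adj x z → ¬ G.Adj z y) ∧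
      (∀ z w, G.Adj x z → G.Adj z w → ¬ G.Adj w y)) ∧
    (∀ x y, x ∉ A → x ∉ B → y ∉ A → y ∉ B → G.Adj x y → f x ≠ f y) := by
  classical
  have := Fintype.ofFinite V
  obtain ⟨Y, hY⟩ := exists_goodY hL
  obtain ⟨A, B, f, hopt⟩ := exists_opt (exists_valid hL hY)
  refine ⟨A, B, f, fun x hx y hy hne => hopt.valid.packA hL hx hy hne,
    fun x hx y hy hne => hopt.valid.packB hL hY hx hy hne, fun x y hxA hxB hyA hyB hxy => ?_⟩
  exact hopt.proper hL hY ⟨hxy, by rintro (h | h) <;> tauto, by rintro (h | h) <;> tauto⟩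

end Pool.Agent.Helper54.ClawFree
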