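import Pool.Agent.Helper54.ClawFree.Token

/-!
# Local modifications of optimal configurations
-/

namespace Pool.Agent.Helper54.ClawFree

variable {V : Type*} {G : SimpleGraph V}

lemma GoodY.su {Y : Set V} (hY : GoodY G Y) {x y : V} (h : SU G x y) (hx : x ∈ Y) : y ∈ Y :=
  h.mem_of_closed (fun a b hab ha => hY.yin a b hab ha) hx

lemma Opt.not_mem (hL : Local G) [Fintype V] {Y A B : Set V} {f : V → Bool} (h : Opt G Y A B f)
    {v₀ w₀ : V} (hr : RAdj G (A ∪ B) v₀ w₀) (hf : f v₀ = f w₀) {v : V}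
    (hv : v ∈ Comp G (A ∪ B) v₀) : v ∉ A ∪ B := by
  obtain ⟨w₁, w₂, -, h1, -, -⟩ := h.degree hL hr hf hv
  exact h1.2.1

/-- The neighbourhood of a vertex with an outer neighbour and two inner neighbours. -/
lemma Local.out_nbrs (hL : Local G) {v v' x y : V} (h : Out G v v') (hx : In G v x)
    (hy : In G v y) (hxy : x ≠ y) (w : V) : G.Adj v w ↔ w = x ∨ w = y ∨ w = v' :=
  hL.nbrs hx.1 hy.1 h.1 hxy (hx.hasOut_ne h) (hy.hasOut_ne h) w

/-- The central contradiction for redirections. -/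
lemma Opt.redirect_contra (hL : Local G) [Fintype V] {Y A B A' B' : Set V} {f : V → Bool}
    (h : Opt G Y A B f) {v₀ w₀ : V} (hr : RAdj G (A ∪ B) v₀ w₀) (hf : f v₀ = f w₀)
    {p q r p' r' : V} (hp : p ∈ Comp G (A ∪ B) v₀) (hpq : In G p q) (hpr : In G p r)
    (hqr : In G q r) (hpp' : Out G p p') (hrr' : Out G r r') (hrS : r ∈ A ∪ B)
    (hv : Valid G Y A' B') (hS' : A' ∪ B' = insert p ((A ∪ B) \ {r})) : False := by
  classical
  obtain ⟨g, w, hg, hpw, hgw⟩ := h.token hL hr hf hp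
  have hNp := hL.out_nbrs hpp' hpr hpq hqr.ne.symm
  obtain ⟨⟨hqS, hp'S⟩, hRq, hRp'⟩ := h.nbrs_of_removed hL hr hf hp hNp hrS
  have hNr := hL.out_nbrs hrr' hpr.symm hqr.symm hpq.ne
  have hqC : q ∈ Comp G (A ∪ B) v₀ := Comp.closed hp hRq
  have hpS : p ∉ A ∪ B := hRq.2.1
  -- `r'` is not in the component
  have hr'C : r' ∉ Comp G (A ∪ B) v₀ := by
    intro hC
    obtain ⟨y, z, hyz, h1, h2, h3, h4, h5, hN⟩ := hL.out_structure hrr'.symm
    have hN' : ∀ w, G.Adj r' w ↔ w = r ∨ w = y ∨ w = z := by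
      intro w; rw [hN w]; tauto
    obtain ⟨⟨hyS, hzS⟩, hRy, -⟩ := h.nbrs_of_removed hL hr hf hC hN' hrS
    rcases h.valid.tri r' y z h1.1 h3.1 h2.1 with h6 | h6 | h6
    · exact hRy.2.1 h6
    · exact hyS h6
    · exact hzS h6
  -- adjust the colour of `q` relative to `r'`
  have hadj : ∃ g₁, Opt G Y A B g₁ ∧ g₁ p = g₁ w ∧ g₁ q = g₁ r' := by
    by_cases hc : g q = g r'
    · exact ⟨g, hg, hgw, hc⟩
    · refine ⟨fun x => if x ∈ Comp G (A ∪ B) v₀ then !g x else g x, ⟨hg.valid, ?_⟩, ?_, ?_⟩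
      · intro A'' B'' f'' hv''
        rw [mono_flipComp]
        exact hg.opt A'' B'' f'' hv''
      · have hwC : w ∈ Comp G (A ∪ B) v₀ := Comp.closed hp hpw
        simp [hp, hwC, hgw]
      · simp only [hqC, hr'C, if_true, if_false]
        cases h5 : g q <;> cases h6 : g r' <;> simp_all
  obtain ⟨g₁, hg₁, hgp, hgq⟩ := hadj
  set g₂ : V → Bool := Function.update g₁ r (!g₁ q) with hg₂
  have g2r : g₂ r = !g₁ q := by simp [hg₂]
  have g2ne : ∀ x, x ≠ r → g₂ x = g₁ x := fun x hx => by simp [hg₂, hx]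
  have hr'r : r' ≠ r := hrr'.ne.symm
  have hqr' : q ≠ r := hqr.ne
  have memS' : ∀ x, x ∉ A' ∪ B' → x ≠ p ∧ (x ∉ A ∪ B ∨ x = r) := by
    intro x hx
    rw [hS'] at hx
    simp only [Set.mem_insert_iff, Set.mem_sdiff, Set.mem_singleton_iff, not_or, not_and,
      not_not] at hx
    refine ⟨hx.1, ?_⟩
    by_cases h5 : x ∈ A ∪ B
    · exact Or.inr (hx.2 h5)
    · exact Or.inl h5
  have hrcase : ∀ b, RAdj G (A' ∪ B') r b → g₂ r = g₂ b → False := by
    intro b hb hgb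
    rcases (hNr b).1 hb.1 with h5 | h5 | h5
    · exact (memS' b hb.2.2).1 h5
    · subst h5
      rw [g2r, g2ne b hqr'] at hgb
      cases h6 : g₁ b <;> simp [h6] at hgb
    · subst h5
      rw [g2r, g2ne b hr'r, ← hgq] at hgb
      cases h6 : g₁ q <;> simp [h6] at hgb
  refine hg₁.not_ssubset (g := g₂) (p := (p, w)) hv ?_ (mem_mono.2 ⟨hpw, hgp⟩) ?_
  · rintro ⟨a, b⟩ hab
    obtain ⟨h1, h2⟩ := mem_mono.1 hab
    simp only at h1 h2
    have ha := memS' a h1.2.1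
    have hb := memS' b h1.2.2
    by_cases har : a = r
    · subst har
      exact (hrcase b h1 h2).elim
    · by_cases hbr : b = r
      · subst hbr
        exact (hrcase a h1.symm h2.symm).elim
      · rw [g2ne a har, g2ne b hbr] at h2
        refine mem_mono.2 ⟨⟨h1.1, ?_, ?_⟩, h2⟩
        · rcases ha.2 with h5 | h5
          · exact h5
          · exact absurd h5 har
        · rcases hb.2 with h5 | h5
          · exact h5
          · exact absurd h5 hbr
  · intro h5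
    have h6 := (mem_mono.1 h5).1.2.1
    exact (memS' p h6).1 rfl

lemma triangle_third (hL : Local G) {p q r r' y z : V} (hpr : In G p r) (hqr : In G q r)
    (hpq : p ≠ q) (hrr' : Out G r r') (h1 : G.Adj r y) (h2 : G.Adj y z) (h3 : G.Adj r z) :
    y = p ∨ z = p := by
  have hNr := hL.out_nbrs hrr' hpr.symm hqr.symm hpq
  have hy : In G r y := ⟨h1, z, h3, h2⟩
  have hz : In G r z := ⟨h3, y, h1, h2.symm⟩
  rcases (hNr y).1 h1 with h4 | h4 | h4
  · exact Or.inl h4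
  · rcases (hNr z).1 h3 with h5 | h5 | h5
    · exact Or.inr h5
    · exact absurd (h4.trans h5.symm) h2.ne
    · exact absurd h5 (hz.hasOut_ne hrr')
  · exact absurd h4 (hy.hasOut_ne hrr')

lemma Opt.redirectX_aux (hL : Local G) [Fintype V] {Y A B : Set V} (hY : GoodY G Y)
    {f : V → Bool} (h : Opt G Y A B f) {v₀ w₀ : V} (hr : RAdj G (A ∪ B) v₀ w₀)
    (hf : f v₀ = f w₀) {p q r p' : V} (hp : p ∈ Comp G (A ∪ B) v₀) (hT : TT G p)
    (hpq : In G p q) (hpr : In G p r) (hqr : In G q r) (hpp' : Out G p p')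
    (hrS : r ∈ A ∪ B) (hpY : p ∉ Y) (hp'Y : p' ∈ Y) : False := by
  have hpS := h.not_mem hL hr hf hp
  have hpA : p ∉ A := fun h' => hpS (Or.inl h')
  have hpB : p ∉ B := fun h' => hpS (Or.inr h')
  have hrY : r ∉ Y := fun h' => hpY (hY.yin r p hpr.symm h')
  have hrB : r ∉ B := fun h' => hrY (h.valid.bY r h')
  have hrA : r ∈ A := by
    rcases hrS with h' | h'
    · exact h'
    · exact absurd h' hrB
  obtain ⟨r', hrr'⟩ := hT.2 r hpr
  have hV := h.valid
  refine h.redirect_contra hL hr hf hp hpq hpr hqr hpp' hrr' hrS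
    (A' := insert p (A \ {r})) (B' := B) ?_ ?_
  · refine ⟨?_, ?_, hV.b1, ?_, hV.bY, hV.bOut, ?_, ?_, ?_, hV.hB⟩
    · rintro x (rfl | ⟨hx, -⟩)
      · exact hpB
      · exact hV.disj x hx
    · rintro x (rfl | ⟨hx, hxr⟩) y (rfl | ⟨hy, hyr⟩) hxy
      · rfl
      · exact absurd (hV.a1 r hrA y hy (hpr.symm.su.trans hxy)).symm hyr
      · exact absurd (hV.a1 r hrA x hx (hpr.symm.su.trans hxy.symm)).symm hxr
      · exact hV.a1 x hx y hy hxy
    · rintro x (rfl | ⟨hx, hxr⟩) x' hxx' y (rfl | ⟨hy, hyr⟩) hsu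
      · exact hL.not_su_of_out hxx' hsu.symm
      · have : x' = p' := hL.out_unique hxx' hpp'
        subst this
        exact hV.aY1 y hy (hY.su hsu hp'Y) x' x hsu.symm hxx'.symm hT
      · exact hV.aOut x hx x' hxx' r hrA (hsu.trans hpr.su)
      · exact hV.aOut x hx x' hxx' y hy hsu
    · intro x y z h1 h2 h3
      have key : ∀ u, u ∈ A ∪ B → u ≠ r → u ∈ insert p (A \ {r}) ∪ B := by
        rintro u (hu | hu) hne
        · exact Or.inl (Or.inr ⟨hu, hne⟩)
        · exact Or.inr hu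
      have hpin : p ∈ insert p (A \ {r}) ∪ B := Or.inl (Or.inl rfl)
      by_cases hxr : x = r
      · subst hxr
        rcases triangle_third hL hpr hqr hpq.ne hrr' h1 h2 h3 with h5 | h5
        · rw [h5]; exact Or.inr (Or.inl hpin)
        · rw [h5]; exact Or.inr (Or.inr hpin)
      · by_cases hyr : y = r
        · subst hyr
          rcases triangle_third hL hpr hqr hpq.ne hrr' h1.symm h3 h2 with h5 | h5
          · rw [h5]; exact Or.inl hpin
          · rw [h5]; exact Or.inr (Or.inr hpin)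
        · by_cases hzr : z = r
          · subst hzr
            rcases triangle_third hL hpr hqr hpq.ne hrr' h3.symm h1 h2.symm with h5 | h5
            · rw [h5]; exact Or.inl hpin
            · rw [h5]; exact Or.inr (Or.inl hpin)
          · rcases hV.tri x y z h1 h2 h3 with h5 | h5 | h5
            · exact Or.inl (key x h5 hxr)
            · exact Or.inr (Or.inl (key y h5 hyr))
            · exact Or.inr (Or.inr (key z h5 hzr))
    · rintro x (rfl | ⟨hx, -⟩) hxY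
      · exact absurd hxY hpY
      · exact hV.aY1 x hx hxY
    · rintro x (rfl | ⟨hx, -⟩) hxY
      · exact absurd hxY hpY
      · exact hV.aY2 x hx hxY
  · ext x
    simp only [Set.mem_union, Set.mem_insert_iff, Set.mem_sdiff, Set.mem_singleton_iff]
    constructor
    · rintro ((h1 | ⟨h1, h2⟩) | h1)
      · exact Or.inl h1
      · exact Or.inr ⟨Or.inl h1, h2⟩
      · exact Or.inr ⟨Or.inr h1, fun h2 => hrB (h2 ▸ h1)⟩
    · rintro (h1 | ⟨h1 | h1, h2⟩)
      · exact Or.inl (Or.inl h1)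
      · exact Or.inl (Or.inr ⟨h1, h2⟩)
      · exact Or.inr h1

/-- The outer neighbour of a triangle type vertex outside `Y` of the component is outside `Y`. -/
lemma Opt.redirectX (hL : Local G) [Fintype V] {Y A B : Set V} (hY : GoodY G Y)
    {f : V → Bool} (h : Opt G Y A B f) {v₀ w₀ : V} (hr : RAdj G (A ∪ B) v₀ w₀)
    (hf : f v₀ = f w₀) {p p' : V} (hp : p ∈ Comp G (A ∪ B) v₀) (hT : TT G p)
    (hpp' : Out G p p') (hpY : p ∉ Y) : p' ∉ Y := by
  intro hp'Y
  have hpS := h.not_mem hL hr hf hp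
  obtain ⟨q, r, p'', hqr, h1, h2, h3, -, -, -⟩ := hL.TT_structure hT
  rcases h.valid.tri p q r h1.1 h3.1 h2.1 with h5 | h5 | h5
  · exact hpS h5
  · exact h.redirectX_aux hL hY hr hf hp hT h2 h1 h3.symm hpp' h5 hpY hp'Y
  · exact h.redirectX_aux hL hY hr hf hp hT h1 h2 h3 hpp' h5 hpY hp'Y

lemma Opt.redirectY_aux (hL : Local G) [Fintype V] {Y A B : Set V} (hY : GoodY G Y)
    {f : V → Bool} (h : Opt G Y A B f) {v₀ w₀ : V} (hr : RAdj G (A ∪ B) v₀ w₀)
    (hf : f v₀ = f w₀) {p q r p' : V} (hp : p ∈ Comp G (A ∪ B) v₀) (hT : TT G p)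
    (hpq : In G p q) (hpr : In G p r) (hqr : In G q r) (hpp' : Out G p p')
    (hrS : r ∈ A ∪ B) (hpY : p ∈ Y) (hp'T : ¬ TT G p') : False := by
  have hpS := h.not_mem hL hr hf hp
  have hpA : p ∉ A := fun h' => hpS (Or.inl h')
  have hpB : p ∉ B := fun h' => hpS (Or.inr h')
  have hrY : r ∈ Y := hY.yin p r hpr hpY
  have hV := h.valid
  have hrA : r ∉ A := fun h' => hV.aY2 r h' hrY (hL.TT_in hT hpr)
  have hrB : r ∈ B := by
    rcases hrS with h' | h'
    · exact absurd h' hrA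
    · exact h'
  obtain ⟨r', hrr'⟩ := hT.2 r hpr
  refine h.redirect_contra hL hr hf hp hpq hpr hqr hpp' hrr' hrS
    (A' := A) (B' := insert p (B \ {r})) ?_ ?_
  · refine ⟨?_, hV.a1, ?_, hV.aOut, ?_, ?_, ?_, hV.aY1, hV.aY2, ?_⟩
    · rintro x hx (rfl | ⟨hx', -⟩)
      · exact hpA hx
      · exact hV.disj x hx hx'
    · rintro x (rfl | ⟨hx, hxr⟩) y (rfl | ⟨hy, hyr⟩) hxy
      · rfl
      · exact absurd (hV.b1 r hrB y hy (hpr.symm.su.trans hxy)).symm hyr
      · exact absurd (hV.b1 r hrB x hx (hpr.symm.su.trans hxy.symm)).symm hxr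
      · exact hV.b1 x hx y hy hxy
    · rintro x (rfl | ⟨hx, -⟩)
      · exact hpY
      · exact hV.bY x hx
    · rintro x (rfl | ⟨hx, hxr⟩) y (rfl | ⟨hy, hyr⟩) x' y' hne hxx' hyy' hin
      · exact hne rfl
      · have : x' = p' := hL.out_unique hxx' hpp'
        subst this
        exact hp'T (hL.TT_of ⟨_, hxx'.symm⟩ ⟨_, hyy'.symm⟩ hin)
      · have : y' = p' := hL.out_unique hyy' hpp'
        subst this
        exact hp'T (hL.TT_of ⟨_, hyy'.symm⟩ ⟨_, hxx'.symm⟩ hin.symm)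
      · exact hV.bOut x hx y hy x' y' hne hxx' hyy' hin
    · intro x y z h1 h2 h3
      have key : ∀ u, u ∈ A ∪ B → u ≠ r → u ∈ A ∪ insert p (B \ {r}) := by
        rintro u (hu | hu) hne
        · exact Or.inl hu
        · exact Or.inr (Or.inr ⟨hu, hne⟩)
      have hpin : p ∈ A ∪ insert p (B \ {r}) := Or.inr (Or.inl rfl)
      by_cases hxr : x = r
      · subst hxr
        rcases triangle_third hL hpr hqr hpq.ne hrr' h1 h2 h3 with h5 | h5
        · rw [h5]; exact Or.inr (Or.inl hpin)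
        · rw [h5]; exact Or.inr (Or.inr hpin)
      · by_cases hyr : y = r
        · subst hyr
          rcases triangle_third hL hpr hqr hpq.ne hrr' h1.symm h3 h2 with h5 | h5
          · rw [h5]; exact Or.inl hpin
          · rw [h5]; exact Or.inr (Or.inr hpin)
        · by_cases hzr : z = r
          · subst hzr
            rcases triangle_third hL hpr hqr hpq.ne hrr' h3.symm h1 h2.symm with h5 | h5
            · rw [h5]; exact Or.inl hpin
            · rw [h5]; exact Or.inr (Or.inl hpin)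
          · rcases hV.tri x y z h1 h2 h3 with h5 | h5 | h5
            · exact Or.inl (key x h5 hxr)
            · exact Or.inr (Or.inl (key y h5 hyr))
            · exact Or.inr (Or.inr (key z h5 hzr))
    · intro x hx
      obtain ⟨y, hy, hxy⟩ := hV.hB x hx
      by_cases hyr : y = r
      · subst hyr
        exact ⟨p, Or.inl rfl, hxy.trans hpr.symm.su⟩
      · exact ⟨y, Or.inr ⟨hy, hyr⟩, hxy⟩
  · ext x
    simp only [Set.mem_union, Set.mem_insert_iff, Set.mem_sdiff, Set.mem_singleton_iff]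
    constructor
    · rintro (h1 | h1 | ⟨h1, h2⟩)
      · exact Or.inr ⟨Or.inl h1, fun h2 => hrA (h2 ▸ h1)⟩
      · exact Or.inl h1
      · exact Or.inr ⟨Or.inr h1, h2⟩
    · rintro (h1 | ⟨h1 | h1, h2⟩)
      · exact Or.inr (Or.inl h1)
      · exact Or.inl h1
      · exact Or.inr (Or.inr ⟨h1, h2⟩)

/-- The outer neighbour of a triangle type vertex in `Y` of the component is of triangle
type. -/
lemma Opt.redirectY (hL : Local G) [Fintype V] {Y A B : Set V} (hY : GoodY G Y)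
    {f : V → Bool} (h : Opt G Y A B f) {v₀ w₀ : V} (hr : RAdj G (A ∪ B) v₀ w₀)
    (hf : f v₀ = f w₀) {p p' : V} (hp : p ∈ Comp G (A ∪ B) v₀) (hT : TT G p)
    (hpp' : Out G p p') (hpY : p ∈ Y) : TT G p' := by
  by_contra hp'T
  have hpS := h.not_mem hL hr hf hp
  obtain ⟨q, r, p'', hqr, h1, h2, h3, -, -, -⟩ := hL.TT_structure hT
  rcases h.valid.tri p q r h1.1 h3.1 h2.1 with h5 | h5 | h5
  · exact hpS h5
  · exact h.redirectY_aux hL hY hr hf hp hT h2 h1 h3.symm hpp' h5 hpY hp'T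
  · exact h.redirectY_aux hL hY hr hf hp hT h1 h2 h3 hpp' h5 hpY hp'T

/-- A middle vertex of a diamond in the component. -/
lemma Opt.mid (hL : Local G) [Fintype V] {Y A B : Set V}
    {f : V → Bool} (h : Opt G Y A B f) {v₀ w₀ : V} (hr : RAdj G (A ∪ B) v₀ w₀)
    (hf : f v₀ = f w₀) {a b c d : V} (hd : Dia G a b c d) (hc : c ∈ Comp G (A ∪ B) v₀) :
    ¬ G.Adj a d ∧ b ∈ A ∪ B ∧ a ∈ Comp G (A ∪ B) v₀ ∧ d ∈ Comp G (A ∪ B) v₀ := by
  have hcS := h.not_mem hL hr hf hc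
  have hV := h.valid
  have hb : b ∈ A ∪ B := by
    by_contra hb
    have h1 : a ∈ A ∪ B := by
      rcases hV.tri a b c hd.adj_ab hd.adj_bc hd.adj_ac with h5 | h5 | h5
      · exact h5
      · exact absurd h5 hb
      · exact absurd h5 hcS
    have h2 : d ∈ A ∪ B := by
      rcases hV.tri b c d hd.adj_bc hd.adj_cd hd.adj_bd with h5 | h5 | h5
      · exact absurd h5 hb
      · exact absurd h5 hcS
      · exact h5
    exact (h.nbrs_of_removed hL hr hf hc hd.hc h1).1.2 h2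
  have hN : ∀ w, G.Adj c w ↔ w = b ∨ w = a ∨ w = d := by
    intro w; rw [hd.hc w]; tauto
  obtain ⟨⟨h1, h2⟩, h3, h4⟩ := h.nbrs_of_removed hL hr hf hc hN hb
  refine ⟨?_, hb, Comp.closed hc h3, Comp.closed hc h4⟩
  intro had
  rcases hV.tri a c d hd.adj_ac hd.adj_cd had with h5 | h5 | h5
  · exact h1 h5
  · exact hcS h5
  · exact h2 h5

/-- The structure of the component at a diamond. -/
lemma Opt.diamond_aux (hL : Local G) [Fintype V] {Y A B : Set V}
    {f : V → Bool} (h : Opt G Y A B f) {v₀ w₀ : V} (hr : RAdj G (A ∪ B) v₀ w₀)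
    (hf : f v₀ = f w₀) {a b c d : V} (hd : Dia G a b c d) (ha : a ∈ Comp G (A ∪ B) v₀) :
    ¬ G.Adj a d ∧ ((b ∈ A ∪ B ∧ c ∈ Comp G (A ∪ B) v₀ ∧ d ∈ Comp G (A ∪ B) v₀) ∨
      (c ∈ A ∪ B ∧ b ∈ Comp G (A ∪ B) v₀ ∧ d ∈ Comp G (A ∪ B) v₀)) := by
  have haS := h.not_mem hL hr hf ha
  have hV := h.valid
  have had : ¬ G.Adj a d := by
    intro had
    have hd' : Dia G b c a d := by
      refine ⟨hd.bc, hd.ab.symm, hd.bd, hd.ac.symm, hd.cd, hd.ad, ?_, ?_⟩
      · intro w; rw [hd.hc w]; tauto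
      · exact hL.nbrs hd.adj_ab hd.adj_ac had hd.bc hd.bd hd.cd
    exact (h.mid hL hr hf hd' ha).1 hd.adj_bd
  refine ⟨had, ?_⟩
  obtain ⟨a', ha'⟩ := hd.hasOut_a hL had
  rcases hV.tri a b c hd.adj_ab hd.adj_bc hd.adj_ac with h5 | h5 | h5
  · exact absurd h5 haS
  · left
    have hN := hL.out_nbrs ha' hd.in_ab hd.in_ac hd.bc
    obtain ⟨-, h3, -⟩ := h.nbrs_of_removed hL hr hf ha hN h5
    have hc : c ∈ Comp G (A ∪ B) v₀ := Comp.closed ha h3
    exact ⟨h5, hc, (h.mid hL hr hf hd hc).2.2.2⟩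
  · right
    have hN := hL.out_nbrs ha' hd.in_ac hd.in_ab hd.bc.symm
    obtain ⟨-, h3, -⟩ := h.nbrs_of_removed hL hr hf ha hN h5
    have hb : b ∈ Comp G (A ∪ B) v₀ := Comp.closed ha h3
    exact ⟨h5, hb, (h.mid hL hr hf hd.swap hb).2.2.2⟩

/-- The structure of the component at a vertex not of triangle type. -/
lemma Opt.diamond (hL : Local G) [Fintype V] {Y A B : Set V}
    {f : V → Bool} (h : Opt G Y A B f) {v₀ w₀ : V} (hr : RAdj G (A ∪ B) v₀ w₀)
    (hf : f v₀ = f w₀) {x : V} (hx : x ∈ Comp G (A ∪ B) v₀) (hT : ¬ TT G x) :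
    ∃ a b c d, Dia G a b c d ∧ ¬ G.Adj a d ∧ b ∈ A ∪ B ∧ a ∈ Comp G (A ∪ B) v₀ ∧
      c ∈ Comp G (A ∪ B) v₀ ∧ d ∈ Comp G (A ∪ B) v₀ ∧ SU G b x := by
  obtain ⟨a, b, c, d, hd, hbx⟩ := hL.dia_of_not_TT hT
  have hbc : SU G c b := hd.in_bc.symm.su
  rcases (hd.su hL x).1 hbx with rfl | rfl | rfl | rfl
  · obtain ⟨h1, ⟨h2, h3, h4⟩ | ⟨h2, h3, h4⟩⟩ := h.diamond_aux hL hr hf hd hx
    · exact ⟨x, b, c, d, hd, h1, h2, hx, h3, h4, hbx⟩
    · exact ⟨x, c, b, d, hd.swap, h1, h2, hx, h3, h4, hbc.trans hbx⟩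
  · obtain ⟨h1, h2, h3, h4⟩ := h.mid hL hr hf hd.swap hx
    exact ⟨a, c, x, d, hd.swap, h1, h2, h3, hx, h4, hbc⟩
  · obtain ⟨h1, h2, h3, h4⟩ := h.mid hL hr hf hd hx
    exact ⟨a, b, x, d, hd, h1, h2, h3, hx, h4, hbx⟩
  · obtain ⟨h1, ⟨h2, h3, h4⟩ | ⟨h2, h3, h4⟩⟩ := h.diamond_aux hL hr hf hd.reverse hx
    · exact ⟨x, b, c, a, hd.reverse, h1, h2, hx, h3, h4, hbx⟩
    · exact ⟨x, c, b, a, hd.reverse.swap, h1, h2, hx, h3, h4, hbc.trans hbx⟩

/-- The outer neighbour of an end of a diamond in the component is in the component. -/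
lemma Opt.end_out (hL : Local G) [Fintype V] {Y A B : Set V}
    {f : V → Bool} (h : Opt G Y A B f) {v₀ w₀ : V} (hr : RAdj G (A ∪ B) v₀ w₀)
    (hf : f v₀ = f w₀) {a b c d a' : V} (hd : Dia G a b c d) (ha : a ∈ Comp G (A ∪ B) v₀)
    (hb : b ∈ A ∪ B) (ha' : Out G a a') : a' ∈ Comp G (A ∪ B) v₀ := by
  have hN := hL.out_nbrs ha' hd.in_ab hd.in_ac hd.bc
  obtain ⟨-, -, h3⟩ := h.nbrs_of_removed hL hr hf ha hN hb
  exact Comp.closed ha h3

/-- Diamonds in `Y` do not meet the component. -/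
lemma Opt.diamondY (hL : Local G) [Fintype V] {Y A B : Set V} (hY : GoodY G Y)
    {f : V → Bool} (h : Opt G Y A B f) {v₀ w₀ : V} (hr : RAdj G (A ∪ B) v₀ w₀)
    (hf : f v₀ = f w₀) {a b c d : V} (hd : Dia G a b c d) (had : ¬ G.Adj a d)
    (hbS : b ∈ A ∪ B) (haC : a ∈ Comp G (A ∪ B) v₀) (hcC : c ∈ Comp G (A ∪ B) v₀)
    (hdC : d ∈ Comp G (A ∪ B) v₀) (hbY : b ∈ Y) : False := by
  have hV := h.valid
  have haS := h.not_mem hL hr hf haC
  have hcS := h.not_mem hL hr hf hcC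
  have hdS := h.not_mem hL hr hf hdC
  -- the only removed vertex of the unit is `b`
  have honly : ∀ y, y ∈ A ∪ B → SU G b y → y = b := by
    intro y hy hby
    rcases (hd.su hL y).1 hby with h1 | h1 | h1 | h1
    · exact absurd (h1 ▸ hy) haS
    · exact h1
    · exact absurd (h1 ▸ hy) hcS
    · exact absurd (h1 ▸ hy) hdS
  have hbB : b ∈ B := by
    obtain ⟨y, hy, hby⟩ := hV.hB b hbY
    rw [honly y (Or.inr hy) hby] at hy
    exact hy
  have hbA : b ∉ A := fun h' => hV.disj b h' hbB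
  have haA : a ∉ A := fun h' => haS (Or.inl h')
  have haB : a ∉ B := fun h' => haS (Or.inr h')
  obtain ⟨a', ha'⟩ := hd.hasOut_a hL had
  obtain ⟨d', hd'⟩ := hd.hasOut_d hL had
  have ha'C := h.end_out hL hr hf hd haC hbS ha'
  have hd'C := h.end_out hL hr hf hd.reverse hdC hbS hd'
  have haY : a ∈ Y := hY.yin b a hd.in_ab.symm hbY
  have hdY : d ∈ Y := hY.yin b d hd.in_bd hbY
  have ha'Y : a' ∉ Y := hY.yout a a' ha' haY
  have hd'Y : d' ∉ Y := hY.yout d d' hd' hdY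
  have ha'T : ¬ TT G a' := fun hT =>
    h.redirectX hL hY hr hf ha'C hT ha'.symm ha'Y haY
  have hd'T : ¬ TT G d' := fun hT =>
    h.redirectX hL hY hr hf hd'C hT hd'.symm hd'Y hdY
  -- vertices of the unit with an outer neighbour
  have houter : ∀ y z, SU G b y → Out G y z → (y = a ∧ z = a') ∨ (y = d ∧ z = d') := by
    intro y z hby hyz
    rcases (hd.su hL y).1 hby with h1 | h1 | h1 | h1
    · subst h1; exact Or.inl ⟨rfl, hL.out_unique hyz ha'⟩
    · subst h1; exact absurd ⟨z, hyz⟩ hd.not_hasOut_b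
    · subst h1; exact absurd ⟨z, hyz⟩ hd.not_hasOut_c
    · subst h1; exact Or.inr ⟨rfl, hL.out_unique hyz hd'⟩
  have hvalid : Valid G Y (insert b A) (insert a (B \ {b})) := by
    refine ⟨?_, ?_, ?_, ?_, ?_, ?_, ?_, ?_, ?_, ?_⟩
    · rintro x (rfl | hx) (hxa | ⟨hx1, hx2⟩)
      · exact hd.ab hxa.symm
      · exact hx2 rfl
      · exact haA (hxa ▸ hx)
      · exact hV.disj x hx hx1
    · rintro x (rfl | hx) y (rfl | hy) hxy
      · rfl
      · exact (honly y (Or.inl hy) hxy).symm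
      · exact honly x (Or.inl hx) hxy.symm
      · exact hV.a1 x hx y hy hxy
    · rintro x (rfl | ⟨hx, hxb⟩) y (rfl | ⟨hy, hyb⟩) hxy
      · rfl
      · exact absurd (hV.b1 b hbB y hy (hd.in_ab.symm.su.trans hxy)).symm hyb
      · exact absurd (hV.b1 b hbB x hx (hd.in_ab.symm.su.trans hxy.symm)).symm hxb
      · exact hV.b1 x hx y hy hxy
    · rintro x (rfl | hx) x' hxx' y (rfl | hy) hsu
      · exact hd.not_hasOut_b ⟨_, hxx'⟩
      · exact hd.not_hasOut_b ⟨_, hxx'⟩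
      · rcases houter x' x hsu.symm hxx'.symm with ⟨-, h2⟩ | ⟨-, h2⟩
        · exact h.not_mem hL hr hf ha'C (h2 ▸ Or.inl hx)
        · exact h.not_mem hL hr hf hd'C (h2 ▸ Or.inl hx)
      · exact hV.aOut x hx x' hxx' y hy hsu
    · rintro x (rfl | ⟨hx, -⟩)
      · exact haY
      · exact hV.bY x hx
    · rintro x (rfl | ⟨hx, hxb⟩) y (rfl | ⟨hy, hyb⟩) x' y' hne hxx' hyy' hin
      · exact hne rfl
      · have : x' = a' := hL.out_unique hxx' ha'
        subst this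
        exact ha'T (hL.TT_of ⟨_, hxx'.symm⟩ ⟨_, hyy'.symm⟩ hin)
      · have : y' = a' := hL.out_unique hyy' ha'
        subst this
        exact ha'T (hL.TT_of ⟨_, hyy'.symm⟩ ⟨_, hxx'.symm⟩ hin.symm)
      · exact hV.bOut x hx y hy x' y' hne hxx' hyy' hin
    · intro x y z h1 h2 h3
      have key : ∀ u, u ∈ A ∪ B → u ∈ insert b A ∪ insert a (B \ {b}) := by
        rintro u (hu | hu)
        · exact Or.inl (Or.inr hu)
        · by_cases hub : u = b
          · exact Or.inl (Or.inl hub)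
          · exact Or.inr (Or.inr ⟨hu, hub⟩)
      rcases hV.tri x y z h1 h2 h3 with h5 | h5 | h5
      · exact Or.inl (key x h5)
      · exact Or.inr (Or.inl (key y h5))
      · exact Or.inr (Or.inr (key z h5))
    · rintro x (rfl | hx) hxY y z hxy hyz
      · rcases houter y z hxy hyz with ⟨-, h2⟩ | ⟨-, h2⟩
        · rw [h2]; exact ha'T
        · rw [h2]; exact hd'T
      · exact hV.aY1 x hx hxY y z hxy hyz
    · rintro x (rfl | hx) hxY
      · exact fun hT => hd.not_hasOut_b hT.1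
      · exact hV.aY2 x hx hxY
    · intro x hx
      obtain ⟨y, hy, hxy⟩ := hV.hB x hx
      by_cases hyb : y = b
      · subst hyb
        exact ⟨a, Or.inl rfl, hxy.trans hd.in_ab.symm.su⟩
      · exact ⟨y, Or.inr ⟨hy, hyb⟩, hxy⟩
  obtain ⟨g, w, hg, haw, hgw⟩ := h.token hL hr hf haC
  have hsub : ∀ u, u ∉ insert b A ∪ insert a (B \ {b}) → u ≠ a ∧ u ∉ A ∪ B := by
    intro u hu
    refine ⟨fun h1 => hu (Or.inr (Or.inl h1)), ?_⟩
    rintro (h1 | h1)
    · exact hu (Or.inl (Or.inr h1))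
    · by_cases hub : u = b
      · exact hu (Or.inl (Or.inl hub))
      · exact hu (Or.inr (Or.inr ⟨h1, hub⟩))
  refine hg.not_ssubset (g := g) (p := (a, w)) hvalid ?_ (mem_mono.2 ⟨haw, hgw⟩) ?_
  · rintro ⟨u, v⟩ huv
    obtain ⟨h1, h2⟩ := mem_mono.1 huv
    exact mem_mono.2 ⟨⟨h1.1, (hsub u h1.2.1).2, (hsub v h1.2.2).2⟩, h2⟩
  · intro h5
    exact (hsub a (mem_mono.1 h5).1.2.1).1 rfl

/-- All vertices of the component are of triangle type. -/
lemma Opt.all_TT (hL : Local G) [Fintype V] {Y A B : Set V} (hY : GoodY G Y)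
    {f : V → Bool} (h : Opt G Y A B f) {v₀ w₀ : V} (hr : RAdj G (A ∪ B) v₀ w₀)
    (hf : f v₀ = f w₀) {x : V} (hx : x ∈ Comp G (A ∪ B) v₀) : TT G x := by
  by_contra hT
  have hYcase : ∀ z, z ∈ Comp G (A ∪ B) v₀ → ¬ TT G z → z ∉ Y := by
    intro z hz hzT hzY
    obtain ⟨a, b, c, d, hd, had, hb, ha, hc, hd', hbz⟩ := h.diamond hL hr hf hz hzT
    exact h.diamondY hL hY hr hf hd had hb ha hc hd' (hY.su hbz.symm hzY)
  have hxY := hYcase x hx hT
  obtain ⟨a, b, c, d, hd, had, hb, ha, hc, hd', hbx⟩ := h.diamond hL hr hf hx hT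
  obtain ⟨y, z, hxy, hyz, hzY⟩ := hY.ymax x hxY
  have hby : SU G b y := hbx.trans hxy
  have hyT : ¬ TT G y := fun h' => hd.not_hasOut_b (hL.TT_su h' hby.symm).1
  have hzC : z ∈ Comp G (A ∪ B) v₀ := by
    rcases (hd.su hL y).1 hby with h1 | h1 | h1 | h1
    · subst h1
      exact h.end_out hL hr hf hd ha hb hyz
    · subst h1; exact absurd ⟨z, hyz⟩ hd.not_hasOut_b
    · subst h1; exact absurd ⟨z, hyz⟩ hd.not_hasOut_c
    · subst h1
      exact h.end_out hL hr hf hd.reverse hd' hb hyz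
  by_cases hzT : TT G z
  · exact hyT (h.redirectY hL hY hr hf hzC hzT hyz.symm hzY)
  · exact hYcase z hzC hzT hzY

end Pool.Agent.Helper54.ClawFree
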