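import Pool.Agent.Helper54.ClawFree.Basic

/-!
# Configurations, optimal colourings and token moves
-/

namespace Pool.Agent.Helper54.ClawFree

variable {V : Type*} {G : SimpleGraph V}

/-- A maximal independent set of units, as a set of vertices. -/
structure GoodY (G : SimpleGraph V) (Y : Set V) : Prop where
  yin : ∀ x y, In G x y → x ∈ Y → y ∈ Y
  yout : ∀ x y, Out G x y → x ∈ Y → y ∉ Y
  ymax : ∀ x, x ∉ Y → ∃ y z, SU G x y ∧ Out G y z ∧ z ∈ Y

/-- A valid pair of removed sets. -/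
structure Valid (G : SimpleGraph V) (Y A B : Set V) : Prop where
  disj : ∀ x ∈ A, x ∉ B
  a1 : ∀ x ∈ A, ∀ y ∈ A, SU G x y → x = y
  b1 : ∀ x ∈ B, ∀ y ∈ B, SU G x y → x = y
  aOut : ∀ x ∈ A, ∀ x', Out G x x' → ∀ y ∈ A, ¬ SU G x' y
  bY : ∀ x ∈ B, x ∈ Y
  bOut : ∀ x ∈ B, ∀ y ∈ B, ∀ x' y', x ≠ y → Out G x x' → Out G y y' → ¬ In G x' y'
  tri : ∀ x y z, G.Adj x y → G.Adj y z → G.Adj x z → x ∈ A ∪ B ∨ y ∈ A ∪ B ∨ z ∈ A ∪ B
  aY1 : ∀ x ∈ A, x ∈ Y → ∀ y z, SU G x y → Out G y z → ¬ TT G z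
  aY2 : ∀ x ∈ A, x ∈ Y → ¬ TT G x
  hB : ∀ x ∈ Y, ∃ y ∈ B, SU G x y

/-- Adjacency in the remaining graph. -/
def RAdj (G : SimpleGraph V) (S : Set V) (x y : V) : Prop := G.Adj x y ∧ x ∉ S ∧ y ∉ S

lemma RAdj.symm {S : Set V} {x y : V} (h : RAdj G S x y) : RAdj G S y x :=
  ⟨h.1.symm, h.2.2, h.2.1⟩

open scoped Classical in
/-- The monochromatic ordered pairs of adjacent remaining vertices. -/
noncomputable def mono (G : SimpleGraph V) [Fintype V] (S : Set V) (f : V → Bool) :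
    Finset (V × V) :=
  Finset.univ.filter (fun p => RAdj G S p.1 p.2 ∧ f p.1 = f p.2)

lemma mem_mono [Fintype V] {S : Set V} {f : V → Bool} {p : V × V} :
    p ∈ mono G S f ↔ RAdj G S p.1 p.2 ∧ f p.1 = f p.2 := by
  simp [mono]

/-- An optimal configuration. -/
structure Opt (G : SimpleGraph V) [Fintype V] (Y A B : Set V) (f : V → Bool) : Prop where
  valid : Valid G Y A B
  opt : ∀ A' B' f', Valid G Y A' B' → (mono G (A ∪ B) f).card ≤ (mono G (A' ∪ B') f').card

lemma exists_opt [Fintype V] {Y : Set V} (h : ∃ A B, Valid G Y A B) :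
    ∃ A B f, Opt G Y A B f := by
  classical
  obtain ⟨A, B, hAB⟩ := h
  have hex : ∃ n, ∃ A B f, Valid G Y A B ∧ (mono G (A ∪ B) f).card = n :=
    ⟨_, A, B, fun _ => true, hAB, rfl⟩
  obtain ⟨A, B, f, hv, hn⟩ := Nat.find_spec hex
  refine ⟨A, B, f, hv, fun A' B' f' hv' => ?_⟩
  rw [hn]
  exact Nat.find_min' hex ⟨A', B', f', hv', rfl⟩

/-- No valid configuration has strictly fewer monochromatic pairs. -/
lemma Opt.not_ssubset [Fintype V] {Y A B A' B' : Set V} {f g : V → Bool} (h : Opt G Y A B f)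
    (hv : Valid G Y A' B') (hsub : mono G (A' ∪ B') g ⊆ mono G (A ∪ B) f) {p : V × V}
    (hp : p ∈ mono G (A ∪ B) f) (hp' : p ∉ mono G (A' ∪ B') g) : False := by
  have h1 : mono G (A' ∪ B') g ⊂ mono G (A ∪ B) f :=
    ⟨hsub, fun h2 => hp' (h2 hp)⟩
  have h2 := Finset.card_lt_card h1
  have h3 := h.opt A' B' g hv
  omega

lemma Valid.two_nbrs (hL : Local G) {Y A B : Set V} (hv : Valid G Y A B) {v w₁ : V}
    (h : RAdj G (A ∪ B) v w₁) :
    ∃ w₂, w₂ ≠ w₁ ∧ ∀ w, RAdj G (A ∪ B) v w → w = w₁ ∨ w = w₂ := by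
  obtain ⟨x, y, z, hxy, hxz, hyz, hadj, hN⟩ := hL v
  have hvx : G.Adj v x := (hN x).2 (Or.inl rfl)
  have hvy : G.Adj v y := (hN y).2 (Or.inr (Or.inl rfl))
  have ht := hv.tri v x y hvx hadj hvy
  have h1 := (hN w₁).1 h.1
  have hw1 : w₁ ∉ A ∪ B := h.2.2
  rcases ht with ht | ht | ht
  · exact absurd ht h.2.1
  · rcases h1 with h1 | h1 | h1
    · rw [h1] at hw1; exact absurd ht hw1
    · refine ⟨z, by rw [h1]; exact hyz.symm, fun w hw => ?_⟩
      rcases (hN w).1 hw.1 with h2 | h2 | h2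
      · exact absurd ht (by rw [← h2]; exact hw.2.2)
      · exact Or.inl (h2.trans h1.symm)
      · exact Or.inr h2
    · refine ⟨y, by rw [h1]; exact hyz, fun w hw => ?_⟩
      rcases (hN w).1 hw.1 with h2 | h2 | h2
      · exact absurd ht (by rw [← h2]; exact hw.2.2)
      · exact Or.inr h2
      · exact Or.inl (h2.trans h1.symm)
  · rcases h1 with h1 | h1 | h1
    · refine ⟨z, by rw [h1]; exact hxz.symm, fun w hw => ?_⟩
      rcases (hN w).1 hw.1 with h2 | h2 | h2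
      · exact Or.inl (h2.trans h1.symm)
      · exact absurd ht (by rw [← h2]; exact hw.2.2)
      · exact Or.inr h2
    · rw [h1] at hw1; exact absurd ht hw1
    · refine ⟨x, by rw [h1]; exact hxz, fun w hw => ?_⟩
      rcases (hN w).1 hw.1 with h2 | h2 | h2
      · exact Or.inr h2
      · exact absurd ht (by rw [← h2]; exact hw.2.2)
      · exact Or.inl (h2.trans h1.symm)

/-- Flipping one end of a monochromatic edge moves the monochromatic edge along. -/
lemma Opt.flip (hL : Local G) [Fintype V] {Y A B : Set V} {f : V → Bool} (h : Opt G Y A B f)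
    {v w₁ : V} (hr : RAdj G (A ∪ B) v w₁) (hf : f v = f w₁) :
    ∃ w₂ g, w₂ ≠ w₁ ∧ RAdj G (A ∪ B) v w₂ ∧ (∀ w, RAdj G (A ∪ B) v w → w = w₁ ∨ w = w₂) ∧
      g v = g w₂ ∧ Opt G Y A B g := by
  classical
  obtain ⟨w₂, hne, hN⟩ := h.valid.two_nbrs hL hr
  set S := A ∪ B with hS
  set g : V → Bool := Function.update f v (!f v) with hg
  have gv : g v = !f v := by simp [hg]
  have gne : ∀ w, w ≠ v → g w = f w := fun w hw => by simp [hg, hw]
  have m1 : (v, w₁) ∈ mono G S f := mem_mono.2 ⟨hr, hf⟩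
  have m2 : (w₁, v) ∈ mono G S f := mem_mono.2 ⟨hr.symm, hf.symm⟩
  have hvw1 : v ≠ w₁ := hr.1.ne
  have gw1 : g w₁ = f w₁ := gne _ hvw1.symm
  -- the general inclusion
  have hincl : ∀ p ∈ mono G S g,
      (p ∈ mono G S f ∧ p ≠ (v, w₁) ∧ p ≠ (w₁, v)) ∨
        (RAdj G S v w₂ ∧ f w₂ ≠ f v ∧ (p = (v, w₂) ∨ p = (w₂, v))) := by
    rintro ⟨a, b⟩ hp
    obtain ⟨hab, hgab⟩ := mem_mono.1 hp
    simp only at hab hgab
    by_cases hav : a = v
    · subst hav
      have hba : b ≠ a := hab.1.ne.symm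
      rw [gv, gne b hba] at hgab
      rcases hN b hab with rfl | rfl
      · rw [← hf] at hgab; cases h5 : f a <;> simp [h5] at hgab
      · right
        refine ⟨hab, ?_, Or.inl rfl⟩
        rw [← hgab]; cases f a <;> simp
    · by_cases hbv : b = v
      · subst hbv
        have hba : a ≠ b := hab.1.ne
        rw [gv, gne a hba] at hgab
        rcases hN a hab.symm with rfl | rfl
        · rw [← hf] at hgab; cases h5 : f b <;> simp [h5] at hgab
        · right
          refine ⟨hab.symm, ?_, Or.inr rfl⟩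
          rw [hgab]; cases f b <;> simp
      · left
        rw [gne a hav, gne b hbv] at hgab
        refine ⟨mem_mono.2 ⟨hab, hgab⟩, ?_, ?_⟩
        · intro h5; exact hav (congrArg Prod.fst h5)
        · intro h5; exact hbv (congrArg Prod.snd h5)
  by_cases hcase : RAdj G S v w₂ ∧ f w₂ ≠ f v
  · refine ⟨w₂, g, hne, hcase.1, hN, ?_, h.valid, ?_⟩
    · rw [gv, gne w₂ hcase.1.1.ne.symm]
      have := hcase.2
      cases h5 : f v <;> cases h6 : f w₂ <;> simp_all
    · intro A' B' f' hv'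
      refine le_trans ?_ (h.opt A' B' f' hv')
      change (mono G S g).card ≤ (mono G S f).card
      have hsub : mono G S g ⊆
          ((mono G S f).erase (v, w₁)).erase (w₁, v) ∪ {(v, w₂), (w₂, v)} := by
        intro p hp
        rw [Finset.mem_union]
        rcases hincl p hp with ⟨h1, h2, h3⟩ | ⟨-, -, h3⟩
        · left
          exact Finset.mem_erase.2 ⟨h3, Finset.mem_erase.2 ⟨h2, h1⟩⟩
        · right
          simpa using h3
      have hc1 := Finset.card_le_card hsub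
      have hc2 := Finset.card_union_le (((mono G S f).erase (v, w₁)).erase (w₁, v))
        {(v, w₂), (w₂, v)}
      have m3 : (w₁, v) ∈ (mono G S f).erase (v, w₁) :=
        Finset.mem_erase.2 ⟨by intro h5; exact hvw1 (congrArg Prod.snd h5), m2⟩
      have hc3 := Finset.card_erase_of_mem m3
      have hc4 := Finset.card_erase_of_mem m1
      have hc5 : ({(v, w₂), (w₂, v)} : Finset (V × V)).card ≤ 2 := Finset.card_le_two
      have hc6 : 0 < ((mono G S f).erase (v, w₁)).card := Finset.card_pos.2 ⟨_, m3⟩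
      have hc7 : 0 < (mono G S f).card := Finset.card_pos.2 ⟨_, m1⟩
      omega
  · exfalso
    refine h.not_ssubset (g := g) h.valid ?_ m1 ?_
    · intro p hp
      rcases hincl p hp with ⟨h1, -, -⟩ | ⟨h1, h2, -⟩
      · exact h1
      · exact absurd ⟨h1, h2⟩ hcase
    · intro hp
      rcases hincl _ hp with ⟨-, h1, -⟩ | ⟨h1, h2, -⟩
      · exact h1 rfl
      · exact hcase ⟨h1, h2⟩

/-- The component of the remaining graph containing `v₀`. -/
def Comp (G : SimpleGraph V) (S : Set V) (v₀ : V) : Set V :=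
  {v | Relation.ReflTransGen (RAdj G S) v₀ v}

lemma Comp.closed {S : Set V} {v₀ x y : V} (hx : x ∈ Comp G S v₀) (h : RAdj G S x y) :
    y ∈ Comp G S v₀ := Relation.ReflTransGen.tail hx h

/-- The monochromatic edge can be moved to any vertex of its component. -/
lemma Opt.token (hL : Local G) [Fintype V] {Y A B : Set V} {f : V → Bool} (h : Opt G Y A B f)
    {v₀ w₀ : V} (hr : RAdj G (A ∪ B) v₀ w₀) (hf : f v₀ = f w₀) {v : V}
    (hv : v ∈ Comp G (A ∪ B) v₀) :
    ∃ g w, Opt G Y A B g ∧ RAdj G (A ∪ B) v w ∧ g v = g w := by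
  induction hv with
  | refl => exact ⟨f, w₀, h, hr, hf⟩
  | @tail b c _ hbc ih =>
    obtain ⟨g, w, hg, hbw, hgw⟩ := ih
    by_cases hcw : c = w
    · subst hcw
      exact ⟨g, b, hg, hbc.symm, hgw.symm⟩
    · obtain ⟨w₂, g', hne, hb2, hN, hg2, hopt⟩ := hg.flip hL hbw hgw
      rcases hN c hbc with h1 | h1
      · exact absurd h1 hcw
      · subst h1
        exact ⟨g', b, hopt, hbc.symm, hg2.symm⟩

/-- Every vertex of the component of a monochromatic edge has exactly two remaining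
neighbours. -/
lemma Opt.degree (hL : Local G) [Fintype V] {Y A B : Set V} {f : V → Bool} (h : Opt G Y A B f)
    {v₀ w₀ : V} (hr : RAdj G (A ∪ B) v₀ w₀) (hf : f v₀ = f w₀) {v : V}
    (hv : v ∈ Comp G (A ∪ B) v₀) :
    ∃ w₁ w₂, w₁ ≠ w₂ ∧ RAdj G (A ∪ B) v w₁ ∧ RAdj G (A ∪ B) v w₂ ∧
      ∀ w, RAdj G (A ∪ B) v w → w = w₁ ∨ w = w₂ := by
  obtain ⟨g, w, hg, hvw, hgw⟩ := h.token hL hr hf hv
  obtain ⟨w₂, g', hne, hb2, hN, hg2, hopt⟩ := hg.flip hL hvw hgw
  exact ⟨w, w₂, hne.symm, hvw, hb2, hN⟩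

/-- If `x, y, z` are the three neighbours of a vertex `v` of the component and `x` is removed,
then `y` and `z` are not. -/
lemma Opt.nbrs_of_removed (hL : Local G) [Fintype V] {Y A B : Set V} {f : V → Bool}
    (h : Opt G Y A B f) {v₀ w₀ : V} (hr : RAdj G (A ∪ B) v₀ w₀) (hf : f v₀ = f w₀) {v : V}
    (hv : v ∈ Comp G (A ∪ B) v₀) {x y z : V} (hN : ∀ w, G.Adj v w ↔ w = x ∨ w = y ∨ w = z)
    (hx : x ∈ A ∪ B) :
    (y ∉ A ∪ B ∧ z ∉ A ∪ B) ∧ (RAdj G (A ∪ B) v y ∧ RAdj G (A ∪ B) v z) := by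
  obtain ⟨w₁, w₂, hne, h1, h2, -⟩ := h.degree hL hr hf hv
  have e1 := (hN w₁).1 h1.1
  have e2 := (hN w₂).1 h2.1
  have n1 : w₁ ≠ x := fun e => h1.2.2 (e ▸ hx)
  have n2 : w₂ ≠ x := fun e => h2.2.2 (e ▸ hx)
  rcases e1 with e1 | e1 | e1
  · exact absurd e1 n1
  · rcases e2 with e2 | e2 | e2
    · exact absurd e2 n2
    · exact absurd (e1.trans e2.symm) hne
    · subst e1; subst e2
      exact ⟨⟨h1.2.2, h2.2.2⟩, h1, h2⟩
  · rcases e2 with e2 | e2 | e2
    · exact absurd e2 n2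
    · subst e1; subst e2
      exact ⟨⟨h2.2.2, h1.2.2⟩, h2, h1⟩
    · exact absurd (e1.trans e2.symm) hne

/-- Complementing the colours on a component preserves the monochromatic pairs. -/
lemma mono_flipComp [Fintype V] {S : Set V} {v₀ : V} (g : V → Bool) [DecidablePred (· ∈ Comp G S v₀)] :
    mono G S (fun x => if x ∈ Comp G S v₀ then !g x else g x) = mono G S g := by
  ext ⟨a, b⟩
  rw [mem_mono, mem_mono]
  simp only
  refine and_congr_right fun hab => ?_
  by_cases ha : a ∈ Comp G S v₀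
  · have hb : b ∈ Comp G S v₀ := Comp.closed ha hab
    simp [ha, hb]
  · have hb : b ∉ Comp G S v₀ := fun hb => ha (Comp.closed hb hab.symm)
    simp [ha, hb]

end Pool.Agent.Helper54.ClawFree
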